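import Pool.Agent.TBL.Targets
import Pool.Agent.TLT.BR

set_option autoImplicit false

/-!
# BRQ: a product of messages, all edges directed away from the root
-/

namespace Pool.Agent.TBL

open Finset Polynomial
open Pool.Agent.TLT
open scoped BigOperators

noncomputable section

namespace BRQ_

lemma prod_claim {V : Type} (s : Finset V) (x : V → ℝ) (hx : ∀ i ∈ s, |x i| ≤ 1) :
    ∏ i ∈ s, (1 + x i) ≤ 1 + ∑ i ∈ s, x i + 3 ^ s.card * ∑ i ∈ s, x i ^ 2 := by
  classical
  induction s using Finset.induction_on with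
  | empty => simp
  | insert j s hj ih =>
    have ih' := ih fun i hi => hx i (mem_insert_of_mem hi)
    have hxj := hx j (mem_insert_self j s)
    rw [prod_insert hj, sum_insert hj, sum_insert hj, card_insert_of_notMem hj]
    have h1 : 0 ≤ 1 + x j := by linarith [(abs_le.1 hxj).1]
    have h2 : 1 + x j ≤ 2 := by linarith [(abs_le.1 hxj).2]
    have h3 := mul_le_mul_of_nonneg_left ih' h1
    refine h3.trans ?_
    set A := ∑ i ∈ s, x i with hA
    set B := ∑ i ∈ s, x i ^ 2 with hB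
    set q : ℝ := (s.card : ℝ) with hq
    have hB0 : 0 ≤ B := sum_nonneg fun i _ => sq_nonneg _
    have h4 : x j * A ≤ (q * x j ^ 2 + B) / 2 := by
      have e1 : x j * A = ∑ i ∈ s, x j * x i := by rw [hA, mul_sum]
      have e2 : ∑ i ∈ s, x j * x i ≤ ∑ i ∈ s, (x j ^ 2 + x i ^ 2) / 2 :=
        sum_le_sum fun i _ => by nlinarith [sq_nonneg (x j - x i)]
      have e3 : ∑ i ∈ s, (x j ^ 2 + x i ^ 2) / 2 = (q * x j ^ 2 + B) / 2 := by
        rw [← sum_div, sum_add_distrib, sum_const, nsmul_eq_mul]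
      rw [e1, ← e3]
      exact e2
    have h5 : (1 + x j) * (3 ^ s.card * B) ≤ 2 * (3 ^ s.card * B) :=
      mul_le_mul_of_nonneg_right h2 (by positivity)
    have h6 : q ≤ 3 ^ s.card := by
      have : s.card < 3 ^ s.card := Nat.lt_pow_self (by norm_num)
      rw [hq]
      exact_mod_cast this.le
    have h7 : (1 : ℝ) ≤ 3 ^ s.card := one_le_pow₀ (by norm_num)
    have h8 : (3 : ℝ) ^ (s.card + 1) = 3 * 3 ^ s.card := by ring
    rw [h8]
    have h9 : q * x j ^ 2 ≤ 3 ^ s.card * x j ^ 2 := mul_le_mul_of_nonneg_right h6 (sq_nonneg _)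
    have h10 : B ≤ 3 ^ s.card * B := by nlinarith
    have h11 : 0 ≤ 3 ^ s.card * x j ^ 2 := by positivity
    nlinarith

end BRQ_

open BR_ BRQ_

theorem p_BRQ (h1 : T_BAS) : T_BRQ := by
  intro W _ _ K hK V s u g w M hM hu hug
  -- abbreviations
  set T : V → ℝ := fun i => 1 + av (g i) + 2 * av fun y => |w i y| with hT
  set l : V → W → ℝ := fun i y => dl K y + Sop K (g i) y with hl
  set t : V → ℝ := fun i => th (g i) (w i) with ht
  set q : V → W → ℝ := fun i y => l i y / T i with hq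
  have ht0 : ∀ i, 0 ≤ t i := fun i => by
    simp only [ht, th]
    have : 0 ≤ av fun y => |w i y| := av_nonneg fun y => abs_nonneg _
    positivity
  have hth : ∀ i, |T i - 1| ≤ t i := by
    intro i
    have h2 : 0 ≤ av fun y => |w i y| := av_nonneg fun y => abs_nonneg _
    simp only [hT, ht, th]
    have e : 1 + av (g i) + 2 * (av fun y => |w i y|) - 1 = av (g i) + 2 * (av fun y => |w i y|) := by
      ring
    rw [e]
    refine (abs_add_le _ _).trans ?_
    rw [abs_of_nonneg (mul_nonneg zero_le_two h2)]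
  have hkb : ∀ i ∈ s, ∀ b y, Kd K b (u i) y ≤ M i * (T i + sg b * l i y) := fun i hi b y =>
    kd_bound h1 hK b (g i) (w i) (M i) (hM i hi) (u i) (hug i hi) y
  have hk0 : ∀ i ∈ s, ∀ b y, 0 ≤ Kd K b (u i) y := fun i hi b y =>
    kd_nonneg h1 hK b (u i) (hu i hi) y
  have hlT : ∀ i ∈ s, ∀ y, |l i y| ≤ T i := by
    intro i hi y
    have e1 := (hk0 i hi true y).trans (hkb i hi true y)
    have e2 := (hk0 i hi false y).trans (hkb i hi false y)
    have e3 := nonneg_of_mul_nonneg_right e1 (hM i hi)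
    have e4 := nonneg_of_mul_nonneg_right e2 (hM i hi)
    simp only [sg] at e3 e4
    simp at e3 e4
    rw [abs_le]
    constructor <;> linarith
  have hT0 : ∀ i ∈ s, 0 ≤ T i := fun i hi => (abs_nonneg _).trans (hlT i hi (Classical.arbitrary W))
  have hq1 : ∀ i ∈ s, ∀ y, |q i y| ≤ 1 := by
    intro i hi y
    simp only [hq, abs_div, abs_of_nonneg (hT0 i hi)]
    exact div_le_one_of_le₀ (hlT i hi y) (hT0 i hi)
  have hTq : ∀ i ∈ s, ∀ y, T i * q i y = l i y := by
    intro i hi y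
    rcases eq_or_ne (T i) 0 with h0 | h0
    · have := hlT i hi y
      rw [h0] at this ⊢
      have : l i y = 0 := abs_nonpos_iff.1 this
      rw [this, zero_mul]
    · simp only [hq]
      field_simp
  have hTexp : ∀ i, T i ≤ Real.exp (t i) := by
    intro i
    have e1 := Real.add_one_le_exp (T i - 1)
    have e2 : Real.exp (T i - 1) ≤ Real.exp (t i) :=
      Real.exp_le_exp.2 ((le_abs_self _).trans (hth i))
    linarith
  have hql : ∀ i ∈ s, ∀ y, q i y ≤ l i y + t i := by
    intro i hi y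
    have e1 : q i y = l i y - (T i - 1) * q i y := by
      rw [← hTq i hi y]; ring
    have e2 : |(T i - 1) * q i y| ≤ t i := by
      rw [abs_mul]
      calc |T i - 1| * |q i y| ≤ t i * 1 :=
            mul_le_mul (hth i) (hq1 i hi y) (abs_nonneg _) (ht0 i)
        _ = t i := mul_one _
    have e3 := (abs_le.1 e2).1
    rw [e1]
    linarith
  have hq2 : ∀ i ∈ s, ∀ y, q i y ^ 2 ≤ 4 * l i y ^ 2 + 2 * t i := by
    intro i hi y
    by_cases hT2 : 1 / 2 ≤ T i
    · have e1 : |q i y| ≤ |2 * l i y| := by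
        have hTpos : 0 < T i := by linarith
        rw [← hTq i hi y, abs_mul, abs_mul, abs_of_pos hTpos, abs_two]
        nlinarith [abs_nonneg (q i y)]
      have e2 := sq_le_sq.2 e1
      have := ht0 i
      nlinarith
    · have e1 : q i y ^ 2 ≤ 1 := by
        rw [← sq_abs]
        exact pow_le_one₀ (abs_nonneg _) (hq1 i hi y)
      have e3 := (abs_le.1 (hth i)).1
      have e4 : 0 ≤ l i y ^ 2 := sq_nonneg _
      push Not at hT2
      linarith
  refine ⟨fun y => ∑ i ∈ s, (t i + 3 ^ s.card * q i y ^ 2), ?_, ?_, ?_⟩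
  · intro y
    refine sum_nonneg fun i _ => ?_
    have := ht0 i
    positivity
  · intro y
    have hf0 : ∀ i ∈ s, 0 ≤ 1 + q i y := by
      intro i hi
      linarith [(abs_le.1 (hq1 i hi y)).1]
    have b1 : ∏ i ∈ s, Kd K true (u i) y ≤ ∏ i ∈ s, (M i * (T i * (1 + q i y))) := by
      refine prod_le_prod (fun i hi => hk0 i hi _ y) fun i hi => ?_
      have := hkb i hi true y
      rw [← hTq i hi y] at this
      refine this.trans (le_of_eq ?_)
      simp only [sg, if_true]
      ring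
    rw [prod_mul_distrib, prod_mul_distrib] at b1
    have hMp : 0 < ∏ i ∈ s, M i := prod_pos hM
    have b2 : ∏ i ∈ s, T i ≤ Real.exp (∑ i ∈ s, t i) := by
      rw [Real.exp_sum]
      exact prod_le_prod hT0 fun i _ => hTexp i
    have b3 := prod_claim s (fun i => q i y) fun i hi => hq1 i hi y
    have b4 : ∑ i ∈ s, q i y ≤ ∑ i ∈ s, l i y + ∑ i ∈ s, t i := by
      rw [← sum_add_distrib]
      exact sum_le_sum fun i hi => hql i hi y
    have b5 : ∏ i ∈ s, (1 + q i y) ≤
        1 + ∑ i ∈ s, l i y + ∑ i ∈ s, (t i + 3 ^ s.card * q i y ^ 2) := by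
      have b7 : ∑ i ∈ s, (t i + 3 ^ s.card * q i y ^ 2) =
          ∑ i ∈ s, t i + 3 ^ s.card * ∑ i ∈ s, q i y ^ 2 := by
        rw [sum_add_distrib, ← mul_sum]
      rw [b7]
      linarith
    have b6 : 0 ≤ ∏ i ∈ s, (1 + q i y) := prod_nonneg hf0
    calc ∏ i ∈ s, Kd K true (u i) y ≤ (∏ i ∈ s, M i) * ((∏ i ∈ s, T i) * ∏ i ∈ s, (1 + q i y)) := b1
      _ ≤ (∏ i ∈ s, M i) * (Real.exp (∑ i ∈ s, t i) *
          (1 + ∑ i ∈ s, l i y + ∑ i ∈ s, (t i + 3 ^ s.card * q i y ^ 2))) :=
          mul_le_mul_of_nonneg_left (mul_le_mul b2 b5 b6 (Real.exp_nonneg _)) hMp.le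
      _ = _ := by ring
  · have c1 : (av fun y => ∑ i ∈ s, (t i + 3 ^ s.card * q i y ^ 2)) ≤
        av fun y => ∑ i ∈ s, (4 * 3 ^ s.card * t i + 4 * 3 ^ s.card * l i y ^ 2) := by
      refine av_mono fun y => sum_le_sum fun i hi => ?_
      have e1 := mul_le_mul_of_nonneg_left (hq2 i hi y) (show (0 : ℝ) ≤ 3 ^ s.card by positivity)
      have e2 : (1 : ℝ) ≤ 3 ^ s.card := one_le_pow₀ (by norm_num)
      have e3 := ht0 i
      nlinarith
    refine c1.trans (le_of_eq ?_)
    have c2 : (av fun y => ∑ i ∈ s, (4 * 3 ^ s.card * t i + 4 * 3 ^ s.card * l i y ^ 2)) =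
        ∑ i ∈ s, av fun y => (4 * 3 ^ s.card * t i + 4 * 3 ^ s.card * l i y ^ 2) := by
      simp only [av]
      rw [sum_comm, sum_div]
    rw [c2, mul_sum]
    refine sum_congr rfl fun i _ => ?_
    rw [av_add (fun _ => 4 * 3 ^ s.card * t i) (fun y => 4 * 3 ^ s.card * l i y ^ 2), av_const,
      av_smul, mul_add]

end

end Pool.Agent.TBL
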