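import Pool.Agent.TBL.Targets

set_option autoImplicit false

/-!
# A thread of arbitrary length
-/

namespace Pool.Agent.TBL

open Finset Polynomial
open Pool.Agent.TLT
open scoped BigOperators

namespace CHN_

theorem av_nn {W : Type} [Fintype W] (f : W → ℝ) (h : ∀ x, 0 ≤ f x) : 0 ≤ av f := by
  unfold av
  exact div_nonneg (Finset.sum_nonneg fun x _ => h x) (by positivity)

end CHN_

open CHN_ in
theorem p_CHN (h1 : T_NA) (h2 : T_PV) (h3 : T_PVL) (h4 : T_GEO) (h5 : T_THR) : T_CHN := by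
  intro W _ _ K hK hx F n a M hM hn hF j
  obtain ⟨na0, -, -, -, -, -, -, -, -, na10, -, na12⟩ := h1
  have hA : 0 ≤ nA a := na0 a
  have hx0 : 0 ≤ xx K := av_nn _ fun y => sq_nonneg _
  have hn0 : 0 ≤ av n := av_nn _ hn
  have hP : PP K a (av n) = (1 + nA a) * xx K + av n := rfl
  have hP0' : PP K a 0 = (1 + nA a) * xx K + 0 := rfl
  have hAx : 0 ≤ nA a * xx K := mul_nonneg hA hx0
  have hP0 : 0 ≤ PP K a (av n) := by
    rw [hP]
    nlinarith
  have hpow : (3 / 4 : ℝ) ^ (j + 1) ≤ 1 := pow_le_one₀ (by norm_num) (by norm_num)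
  have hpow0 : (0 : ℝ) ≤ (3 / 4 : ℝ) ^ (j + 1) := by positivity
  -- the last two items
  have h45 : xx K * nA (1 + X * (gm j + X ^ j * a)) ≤ 4 * xx K + PP K a (av n) ∧
      (av fun y => (dl K y + Sop K (pv K (gm j + X ^ j * a)) y) ^ 2) ≤
        2 * xx K + 12 * PP K a (av n) := by
    constructor
    · rw [na12 j a]
      have h6 := na10 (j + 1) a
      have h7 : (3 / 4 : ℝ) ^ (j + 1) * nA a ≤ 1 * nA a := mul_le_mul_of_nonneg_right hpow hA
      have h8 := mul_le_mul_of_nonneg_left (h6.trans (add_le_add le_rfl h7)) hx0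
      rw [hP]
      nlinarith
    · obtain ⟨E, -, -, -, h6, -⟩ := h4 W K hK a
      have h7 := h6 (j + 1)
      have h8 : (fun y => (dl K y + Sop K (pv K (gm j + X ^ j * a)) y) ^ 2) =
          fun y => pv K (gm (j + 1) + X ^ (j + 1) * a) y ^ 2 := by
        funext y
        rw [← (h3 W K).1 (gm j + X ^ j * a) y, na12 j a]
      rw [h8]
      refine h7.trans ?_
      have h9 : 0 ≤ PP K a 0 := by
        rw [hP0']
        nlinarith
      have h10 : (3 / 4 : ℝ) ^ (j + 1) * PP K a 0 ≤ 1 * PP K a 0 :=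
        mul_le_mul_of_nonneg_right hpow h9
      have h11 : PP K a 0 ≤ PP K a (av n) := by
        rw [hP, hP0']
        linarith
      nlinarith
  rcases Nat.eq_zero_or_pos j with hj | hj
  · subst hj
    have e1 : (gm 0 + X ^ 0 * a : ℝ[X]) = a := by
      simp [gm]
    refine ⟨M, n, hM, ?_, ?_, ?_, h45.1, h45.2⟩
    · intro y
      rw [e1]
      exact hF y
    · simp only [Nat.cast_zero, zero_div, zero_mul, sub_zero]
      linarith
    · rw [e1]
      unfold th
      have h6 := (h2 W K hK a).2.1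
      have h7 : |av (pv K a)| ≤ 3 / 2 * ((1 + nA a) * xx K) := by
        apply abs_le_of_sq_le_sq _ (by nlinarith)
        refine h6.trans ?_
        have h8 : 6 * nA a ≤ 9 / 4 * (1 + nA a) ^ 2 := by nlinarith [sq_nonneg (nA a - 1)]
        have h9 := mul_le_mul_of_nonneg_right h8 (sq_nonneg (xx K))
        nlinarith
      have h8 : (av fun y => |n y|) = av n := by
        congr 1
        funext y
        exact abs_of_nonneg (hn y)
      rw [h8, hP]
      nlinarith
  · obtain ⟨M', w, h6, h7, h8, h9⟩ := h5 W K hK hx F n a M hM hn hF j hj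
    refine ⟨M', w, h6, h7, h8, ?_, h45.1, h45.2⟩
    unfold th
    refine h9.trans ?_
    have h10 : (3 / 4 : ℝ) ^ j ≤ 1 := pow_le_one₀ (by norm_num) (by norm_num)
    have h11 : (3 / 4 : ℝ) ^ j * PP K a (av n) ≤ 1 * PP K a (av n) :=
      mul_le_mul_of_nonneg_right h10 hP0
    nlinarith

end Pool.Agent.TBL
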