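import Pool.Agent.TBL.Targets

set_option autoImplicit false

/-!
# Counting the vertices of a rooted tree that do not have exactly one child
-/

namespace Pool.Agent.TBL

open Finset
open Pool.Agent.TLT

theorem p_CNQ : T_CNQ := by
  intro V _ _ par dep S r hR
  have hch : ∀ v c, c ∈ AntiSid.ch par S r v ↔ c ∈ S ∧ c ≠ r ∧ par c = v := by
    intro v c
    simp [AntiSid.ch]
  -- the children partition `S \ {r}`
  have h1 : ∑ v ∈ S, (AntiSid.ch par S r v).card + 1 = S.card := by
    have h2 : (S.erase r).card = ∑ v ∈ S, ((S.erase r).filter fun c => par c = v).card :=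
      Finset.card_eq_sum_card_fiberwise fun c hc => by
        have hc' := Finset.mem_erase.mp hc
        exact hR.hpar c hc'.2 hc'.1
    have h3 : ∀ v ∈ S, ((S.erase r).filter fun c => par c = v).card =
        (AntiSid.ch par S r v).card := by
      intro v _
      congr 1
      ext c
      rw [hch, Finset.mem_filter, Finset.mem_erase]
      tauto
    rw [← Finset.sum_congr rfl h3, ← h2]
    exact Finset.card_erase_add_one hR.hr
  have hsub : Bs par S r ⊆ S := Finset.filter_subset _ _
  have h4 : ∑ v ∈ S \ Bs par S r, (AntiSid.ch par S r v).card = (S \ Bs par S r).card := by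
    rw [Finset.card_eq_sum_ones]
    refine Finset.sum_congr rfl fun v hv => ?_
    rw [Finset.mem_sdiff, Bs, Finset.mem_filter] at hv
    by_contra hne
    exact hv.2 ⟨hv.1, Or.inr hne⟩
  have h5 := Finset.sum_sdiff (f := fun v => (AntiSid.ch par S r v).card) hsub
  have h6 := Finset.card_sdiff_add_card_eq_card hsub
  have h7 : (∑ v ∈ Bs par S r, (AntiSid.ch par S r v).card) + 1 = (Bs par S r).card := by
    omega
  refine ⟨h7, ?_⟩
  have h8 : ∀ v ∈ Bs par S r, 2 ≤ (AntiSid.ch par S r v).card +
      2 * (if AntiSid.ch par S r v = ∅ then 1 else 0) + (if v = r then 1 else 0) := by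
    intro v hv
    rw [Bs, Finset.mem_filter] at hv
    by_cases he : AntiSid.ch par S r v = ∅
    · rw [if_pos he]
      omega
    · have hpos : 0 < (AntiSid.ch par S r v).card := Finset.card_pos.mpr
        (Finset.nonempty_iff_ne_empty.mpr he)
      by_cases hvr : v = r
      · rw [if_pos hvr]
        omega
      · have := hv.2.resolve_left hvr
        omega
  have h9 := Finset.sum_le_sum h8
  rw [Finset.sum_const, Finset.sum_add_distrib, Finset.sum_add_distrib, ← Finset.mul_sum,
    smul_eq_mul] at h9
  have h10 : ∑ v ∈ Bs par S r, (if v = r then 1 else 0) ≤ 1 := by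
    rw [Finset.sum_ite_eq' (Bs par S r) r fun _ => 1]
    split_ifs <;> omega
  have h11 : ∑ v ∈ Bs par S r, (if AntiSid.ch par S r v = ∅ then 1 else 0) ≤
      (S.filter fun v => AntiSid.ch par S r v = ∅).card := by
    rw [← Finset.card_filter]
    exact Finset.card_le_card (Finset.filter_subset_filter _ hsub)
  omega

end Pool.Agent.TBL
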