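import Pool.Agent.TBL.Targets

set_option autoImplicit false

/-!
# Trees with few leaves in tournaments (MP_d27362_co): rooted trees with few leaves
-/

namespace Pool.Agent.TBL

open Finset Polynomial
open Pool.Agent.TLT
open scoped BigOperators

namespace CORQ_

lemma sum_le_prod {V : Type} (s : Finset V) (G : V → ℝ) (hG : ∀ i ∈ s, 1 ≤ G i) :
    ∑ i ∈ s, (G i - 1) ≤ ∏ i ∈ s, G i - 1 ∧ 1 ≤ ∏ i ∈ s, G i := by
  classical
  induction s using Finset.induction_on with
  | empty => simp
  | insert j s hj ih =>
    obtain ⟨h1, h2⟩ := ih fun i hi => hG i (Finset.mem_insert_of_mem hi)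
    have h3 := hG j (Finset.mem_insert_self j s)
    rw [Finset.sum_insert hj, Finset.prod_insert hj]
    constructor
    · nlinarith
    · nlinarith

lemma InvQ_mono {W : Type} [Fintype W] {K : W → W → ℝ} {F : W → ℝ} {a : ℝ[X]} {Λ β β' : ℝ}
    (h : InvQ K F a Λ β) (hb : β ≤ β') : InvQ K F a Λ β' := by
  obtain ⟨h1, M, n, h2, h3, h4, h5⟩ := h
  exact ⟨h1, M, n, h2, h3, h4, h5.trans hb⟩

lemma xx_nonneg {W : Type} [Fintype W] (K : W → W → ℝ) : 0 ≤ xx K := by
  unfold xx av
  exact div_nonneg (Finset.sum_nonneg fun y _ => sq_nonneg _) (Nat.cast_nonneg _)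

/-- numerical facts -/
lemma numer (m nS nB : ℕ) (hS : 10 ^ (9 * m + 4) ≤ nS) (hB : nB ≤ 2 * m) (hB1 : 1 ≤ nB) :
    ∃ Z : ℝ, (24006 : ℝ) ^ nB ≤ Z ∧ 1000000000 * (m : ℝ) ≤ Z ∧ 10000 * Z ≤ (nS : ℝ) := by
  have hm : 1 ≤ m := by omega
  refine ⟨(10 : ℝ) ^ (9 * m), ?_, ?_, ?_⟩
  · calc (24006 : ℝ) ^ nB ≤ 24006 ^ (2 * m) := pow_le_pow_right₀ (by norm_num) hB
      _ = (24006 ^ 2) ^ m := by rw [pow_mul]
      _ ≤ (10 ^ 9) ^ m := pow_le_pow_left₀ (by norm_num) (by norm_num) m
      _ = 10 ^ (9 * m) := by rw [← pow_mul]
  · obtain ⟨k, rfl⟩ := Nat.exists_eq_add_of_le hm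
    have h1 : ((1 + k : ℕ) : ℝ) ≤ 10 ^ (9 * k) := by
      have h2 : k < 10 ^ (9 * k) := by
        calc k < 10 ^ k := Nat.lt_pow_self (by norm_num)
          _ ≤ 10 ^ (9 * k) := Nat.pow_le_pow_right (by norm_num) (by omega)
      have h3 : 1 + k ≤ 10 ^ (9 * k) := by omega
      exact_mod_cast h3
    have h4 : (10 : ℝ) ^ (9 * (1 + k)) = 1000000000 * 10 ^ (9 * k) := by
      rw [mul_add, pow_add]
      norm_num
    rw [h4]
    linarith
  · have h1 : 10000 * 10 ^ (9 * m) ≤ nS := by
      refine le_trans (le_of_eq ?_) hS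
      rw [pow_add]
      ring
    exact_mod_cast h1

end CORQ_

open CORQ_ in
/-- rooted trees with few leaves -/
theorem p_CORQ (h1 : T_KER) (h2 : T_ELIM) (h3 : T_FIX) (h4 : T_SUM) (h5 : T_CNQ) (h6 : T_DSQ)
    (h7 : T_STQ) (h8 : T_RTQ) (h9 : T_FRQ) : T_CORQ := by
  intro V _ _ par dep S r hR m hm hn
  intro W _ _ G hW hG
  obtain ⟨F, hF, hsum⟩ := h2 V par dep S r hR W G (fun _ => true) hG
  refine hsum.trans ?_
  have hK := h1 W G hG
  set K := KG G with hKdef
  obtain ⟨a, ha⟩ := h3 V par dep S r hR ℝ[X]
    (fun v f => ∑ c ∈ AntiSid.ch par S r v, (1 + X * f c)) (by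
      intro v _ f g hfg
      exact Finset.sum_congr rfl fun c hc => by rw [hfg c hc])
  have hmain : av (F r) ≤ 1 := by
    have hdesc := h6 V par dep S r hR W K F a hF ha
    obtain ⟨hcnt1, hcnt2⟩ := h5 V par dep S r hR
    have hrS := hR.hr
    set B := Bs par S r with hB
    have hBS : B ⊆ S := Finset.filter_subset _ _
    have hrB : r ∈ B := by
      rw [hB]
      unfold Bs
      rw [mem_filter]
      exact ⟨hrS, Or.inl rfl⟩
    have hBc : B.card ≤ 2 * m := hcnt2.trans (Nat.mul_le_mul_left 2 hm)
    obtain ⟨Z, hZ1, hZ2, hZ3⟩ := numer m S.card B.card hn hBc (Finset.card_pos.2 ⟨r, hrB⟩)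
    have hBc' : (B.card : ℝ) ≤ 2 * m := by exact_mod_cast hBc
    have hm0 : (0 : ℝ) ≤ m := Nat.cast_nonneg m
    obtain ⟨N, hN⟩ : ∃ N : ℕ, ∀ v : V, dep v ≤ N :=
      ⟨univ.sup dep, fun v => Finset.le_sup (mem_univ v)⟩
    -- data of the children
    have key : ∀ v ∈ B, ∀ c, ∃ (j : ℕ) (b : V), c ∈ AntiSid.ch par S r v →
        (b ∈ B ∧ F c = (Kd K true)^[j] (F b) ∧ a c = gm j + X ^ j * a b ∧ dep v < dep b ∧
          ∀ (τ : V → ℝ) (ρ : ℝ), (∀ u ∈ S, u ∉ B →
            τ u = ρ + ∑ c ∈ AntiSid.ch par S r u, τ c) → τ c = j * ρ + τ b) := by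
      intro v hv c
      by_cases hc : c ∈ AntiSid.ch par S r v
      · have hc' := hc
        unfold AntiSid.ch at hc'
        rw [mem_filter] at hc'
        obtain ⟨hcS, hcr, hcv⟩ := hc'
        obtain ⟨j, b, hb, hbr, hFj, haj, hdj, hτ⟩ := hdesc c hcS hcr
        have hdc := hR.hdep c hcS hcr
        rw [hcv] at hdc
        exact ⟨j, b, fun _ => ⟨hb, hFj, haj, by omega, hτ⟩⟩
      · exact ⟨0, v, fun h => absurd h hc⟩
    have hsumB : ∀ f g : V → ℝ, ∑ v ∈ S, (if v ∈ B then f v else g v) =
        ∑ v ∈ B, f v + ∑ v ∈ S \ B, g v := by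
      intro f g
      rw [← Finset.sum_sdiff hBS, add_comm]
      congr 1
      · exact Finset.sum_congr rfl fun v hv => if_pos hv
      · exact Finset.sum_congr rfl fun v hv => if_neg (Finset.mem_sdiff.1 hv).2
    have hSB : ((S \ B).card : ℝ) = S.card - B.card := by
      rw [Finset.card_sdiff_of_subset hBS, Nat.cast_sub (Finset.card_le_card hBS)]
    rcases le_or_gt (xx K) (1 / 10000) with hx | hx
    · -- near
      have hx0 := xx_nonneg K
      obtain ⟨g, hg⟩ := h3 V par dep S r hR ℝ
        (fun v f => (if v ∈ B then Real.log (2 * cc (AntiSid.ch par S r v).card + 1) else 0) +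
          ∑ c ∈ AntiSid.ch par S r v, f c) (by
          intro v _ f g hfg
          exact congrArg _ (Finset.sum_congr rfl fun c hc => hfg c hc))
      obtain ⟨cl, hcl⟩ := h3 V par dep S r hR ℝ
        (fun v f => (if v ∈ B then 0 else 1) + ∑ c ∈ AntiSid.ch par S r v, f c) (by
          intro v _ f g hfg
          exact congrArg _ (Finset.sum_congr rfl fun c hc => hfg c hc))
      have hcc0 : ∀ q : ℕ, 0 < cc q := fun q => by
        unfold cc
        positivity
      have hgB : ∀ u ∈ S, u ∉ B → g u = 0 + ∑ c ∈ AntiSid.ch par S r u, g c := by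
        intro u hu huB
        rw [hg u hu]
        exact congrArg (fun t => t + _) (if_neg huB)
      have hclB : ∀ u ∈ S, u ∉ B → cl u = 1 + ∑ c ∈ AntiSid.ch par S r u, cl c := by
        intro u hu huB
        rw [hcl u hu]
        exact congrArg (fun t => t + _) (if_neg huB)
      have hinv : ∀ t : ℕ, ∀ v ∈ B, N + 1 ≤ dep v + t → 0 ≤ g v ∧ ∀ Λ : ℝ, 1000 ≤ Λ →
          InvQ K (F v) (a v) Λ (Λ * (Real.exp (g v) - 1) * xx K - cl v / 2 * xx K) := by
        intro t
        induction t with
        | zero =>
          intro v _ ht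
          have := hN v
          omega
        | succ t ih =>
          intro v hv ht
          have hvS := hBS hv
          choose jf bf hjb using key v hv
          have hgc : ∀ c ∈ AntiSid.ch par S r v, g c = g (bf c) := by
            intro c hc
            have := (hjb c hc).2.2.2.2 g 0 hgB
            rwa [mul_zero, zero_add] at this
          have hclc : ∀ c ∈ AntiSid.ch par S r v, cl c = jf c + cl (bf c) := by
            intro c hc
            have := (hjb c hc).2.2.2.2 cl 1 hclB
            rwa [mul_one] at this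
          have hih : ∀ c ∈ AntiSid.ch par S r v, 0 ≤ g (bf c) ∧ ∀ Λ : ℝ, 1000 ≤ Λ →
              InvQ K (F (bf c)) (a (bf c)) Λ
                (Λ * (Real.exp (g (bf c)) - 1) * xx K - cl (bf c) / 2 * xx K) := by
            intro c hc
            have h10 := hjb c hc
            exact ih (bf c) h10.1 (by have := h10.2.2.2.1; omega)
          have hgv : g v = Real.log (2 * cc (AntiSid.ch par S r v).card + 1) +
              ∑ c ∈ AntiSid.ch par S r v, g c := by
            rw [hg v hvS]
            exact congrArg (fun t => t + _) (if_pos hv)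
          have hclv : cl v = ∑ c ∈ AntiSid.ch par S r v, cl c := by
            rw [hcl v hvS]
            have : (if v ∈ B then (0 : ℝ) else 1) = 0 := if_pos hv
            rw [this, zero_add]
          set q := (AntiSid.ch par S r v).card with hq
          have hc0 := hcc0 q
          constructor
          · rw [hgv]
            have e1 : 0 ≤ Real.log (2 * cc q + 1) := Real.log_nonneg (by linarith)
            have e2 : 0 ≤ ∑ c ∈ AntiSid.ch par S r v, g c := Finset.sum_nonneg fun c hc => by
              rw [hgc c hc]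
              exact (hih c hc).1
            linarith
          · intro Λ hΛ
            have hΛ' : 1000 ≤ (cc q + 1) * Λ := by nlinarith
            have h10 := h7 W K hK hx V (AntiSid.ch par S r v) (fun c => F (bf c))
              (fun c => a (bf c)) jf
              (fun c => (cc q + 1) * Λ * (Real.exp (g (bf c)) - 1) * xx K -
                cl (bf c) / 2 * xx K) Λ hΛ (fun c hc => (hih c hc).2 _ hΛ')
            have e1 : F v = fun y => ∏ i ∈ AntiSid.ch par S r v,
                Kd K true ((Kd K true)^[jf i] (F (bf i))) y := by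
              rw [hF v hvS]
              funext y
              exact Finset.prod_congr rfl fun c hc => by rw [(hjb c hc).2.1]
            have e2 : a v = ∑ i ∈ AntiSid.ch par S r v,
                (1 + X * (gm (jf i) + X ^ (jf i) * a (bf i))) := by
              rw [ha v hvS]
              exact Finset.sum_congr rfl fun c hc => by rw [(hjb c hc).2.2.1]
            rw [e1, e2]
            refine InvQ_mono h10 ?_
            rw [← hq]
            have e3 : ∑ c ∈ AntiSid.ch par S r v, ((cc q + 1) * Λ *
                (Real.exp (g (bf c)) - 1) * xx K - cl (bf c) / 2 * xx K - jf c / 2 * xx K) =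
                (cc q + 1) * Λ * xx K * (∑ c ∈ AntiSid.ch par S r v, (Real.exp (g c) - 1)) -
                cl v / 2 * xx K := by
              rw [hclv, Finset.sum_div, Finset.mul_sum, Finset.sum_mul, ← Finset.sum_sub_distrib]
              refine Finset.sum_congr rfl fun c hc => ?_
              rw [hgc c hc, hclc c hc]
              ring
            rw [e3]
            have e4 : ∑ c ∈ AntiSid.ch par S r v, (Real.exp (g c) - 1) ≤
                ∏ c ∈ AntiSid.ch par S r v, Real.exp (g c) - 1 :=
              (sum_le_prod _ (fun c => Real.exp (g c)) fun c hc => by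
                rw [hgc c hc]
                exact Real.one_le_exp (hih c hc).1).1
            have e5 : Real.exp (g v) = (2 * cc q + 1) *
                ∏ c ∈ AntiSid.ch par S r v, Real.exp (g c) := by
              rw [hgv, Real.exp_add, Real.exp_log (by linarith), Real.exp_sum]
            have e6 : 1 ≤ ∏ c ∈ AntiSid.ch par S r v, Real.exp (g c) :=
              (sum_le_prod _ (fun c => Real.exp (g c)) fun c hc => by
                rw [hgc c hc]
                exact Real.one_le_exp (hih c hc).1).2
            rw [e5]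
            set PG := ∏ c ∈ AntiSid.ch par S r v, Real.exp (g c) with hPG
            have hLx : 0 ≤ Λ * xx K := mul_nonneg (by linarith) hx0
            have e7 : (cc q + 1) * (∑ c ∈ AntiSid.ch par S r v, (Real.exp (g c) - 1)) + 2 * cc q ≤
                (2 * cc q + 1) * PG - 1 := by
              have := mul_le_mul_of_nonneg_left e4 (show (0 : ℝ) ≤ cc q + 1 by linarith)
              nlinarith
            have e8 := mul_le_mul_of_nonneg_left e7 hLx
            linarith
      obtain ⟨-, h11⟩ := hinv (N + 1) r hrB (by omega)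
      refine h8 W K hK (F r) (a r) 1000 _ (by norm_num) ?_ (h11 1000 le_rfl)
      have e1 : g r = ∑ v ∈ B, Real.log (2 * cc (AntiSid.ch par S r v).card + 1) := by
        rw [h4 V par dep S r hR _ g hg, hsumB]
        simp
      have e2 : cl r = S.card - B.card := by
        rw [h4 V par dep S r hR _ cl hcl, hsumB, ← hSB]
        simp
      have e3 : Real.exp (g r) ≤ 24006 ^ B.card := by
        rw [e1, Real.exp_sum]
        have f1 : ∀ v ∈ B, Real.exp (Real.log (2 * cc (AntiSid.ch par S r v).card + 1)) ≤
            4001 * 6 ^ (AntiSid.ch par S r v).card := by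
          intro v _
          rw [Real.exp_log (by linarith [hcc0 (AntiSid.ch par S r v).card])]
          unfold cc
          have : (1 : ℝ) ≤ 6 ^ (AntiSid.ch par S r v).card := one_le_pow₀ (by norm_num)
          linarith
        refine (Finset.prod_le_prod (fun v _ => (Real.exp_pos _).le) f1).trans ?_
        rw [Finset.prod_mul_distrib, Finset.prod_const, Finset.prod_pow_eq_pow_sum]
        have f2 : (6 : ℝ) ^ (∑ v ∈ B, (AntiSid.ch par S r v).card) ≤ 6 ^ B.card :=
          pow_le_pow_right₀ (by norm_num) (by omega)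
        calc (4001 : ℝ) ^ B.card * 6 ^ (∑ v ∈ B, (AntiSid.ch par S r v).card)
            ≤ 4001 ^ B.card * 6 ^ B.card := mul_le_mul_of_nonneg_left f2 (by positivity)
          _ = 24006 ^ B.card := by rw [← mul_pow]; norm_num
      rw [e2]
      have e4 : 1000 * (Real.exp (g r) - 1) ≤ ((S.card : ℝ) - B.card) / 2 := by linarith
      have := mul_le_mul_of_nonneg_right e4 hx0
      linarith
    · -- far
      obtain ⟨τ, hτ⟩ := h3 V par dep S r hR ℝ
        (fun v f => (if v ∈ B then Real.log 3 * (AntiSid.ch par S r v).card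
          else (-1 / 120000)) + ∑ c ∈ AntiSid.ch par S r v, f c) (by
          intro v _ f g hfg
          exact congrArg _ (Finset.sum_congr rfl fun c hc => hfg c hc))
      have hτB : ∀ u ∈ S, u ∉ B → τ u = (-1 / 120000) + ∑ c ∈ AntiSid.ch par S r u, τ c := by
        intro u hu huB
        rw [hτ u hu]
        exact congrArg (fun t => t + _) (if_neg huB)
      have hinv : ∀ t : ℕ, ∀ v ∈ B, N + 1 ≤ dep v + t →
          ∀ y, 0 ≤ F v y ∧ F v y ≤ Real.exp (τ v) := by
        intro t
        induction t with
        | zero =>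
          intro v _ ht
          have := hN v
          omega
        | succ t ih =>
          intro v hv ht y
          have hvS := hBS hv
          choose jf bf hjb using key v hv
          have hτc : ∀ c ∈ AntiSid.ch par S r v, τ c = jf c * (-1 / 120000) + τ (bf c) :=
            fun c hc => (hjb c hc).2.2.2.2 τ _ hτB
          have hτv : τ v = Real.log 3 * (AntiSid.ch par S r v).card +
              ∑ c ∈ AntiSid.ch par S r v, τ c := by
            rw [hτ v hvS]
            exact congrArg (fun t => t + _) (if_pos hv)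
          have h10 : ∀ c ∈ AntiSid.ch par S r v, 0 ≤ Kd K true (F c) y ∧
              Kd K true (F c) y ≤ 3 * Real.exp (τ c) := by
            intro c hc
            have h11 := hjb c hc
            have h12 := h9 W K hK hx (F (bf c)) (Real.exp (τ (bf c)))
              (ih (bf c) h11.1 (by have := h11.2.2.2.1; omega)) (jf c) y
            rw [h11.2.1, hτc c hc]
            refine ⟨h12.1, h12.2.trans (le_of_eq ?_)⟩
            rw [← Real.exp_add]
            congr 2
            ring
          have h13 : F v y = ∏ c ∈ AntiSid.ch par S r v, Kd K true (F c) y := by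
            rw [hF v hvS]
          rw [h13]
          refine ⟨Finset.prod_nonneg fun c hc => (h10 c hc).1, ?_⟩
          refine (Finset.prod_le_prod (fun c hc => (h10 c hc).1) fun c hc =>
            (h10 c hc).2).trans (le_of_eq ?_)
          rw [Finset.prod_mul_distrib, Finset.prod_const, ← Real.exp_sum, hτv, Real.exp_add,
            mul_comm (Real.log 3), Real.exp_nat_mul, Real.exp_log (by norm_num)]
      have h14 := hinv (N + 1) r hrB (by omega)
      have e1 : τ r = ∑ v ∈ B, Real.log 3 * (AntiSid.ch par S r v).card +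
          ((S.card : ℝ) - B.card) * (-1 / 120000) := by
        rw [h4 V par dep S r hR _ τ hτ, hsumB, Finset.sum_const, nsmul_eq_mul, hSB]
      have e2 : ∑ v ∈ B, Real.log 3 * ((AntiSid.ch par S r v).card : ℝ) ≤ 2 * B.card := by
        rw [← Finset.mul_sum]
        have f1 : (∑ v ∈ B, ((AntiSid.ch par S r v).card : ℝ)) ≤ B.card := by
          have : (∑ v ∈ B, (AntiSid.ch par S r v).card) ≤ B.card := by omega
          exact_mod_cast this
        have f2 : Real.log 3 ≤ 2 := by
          have := Real.log_le_sub_one_of_pos (show (0 : ℝ) < 3 by norm_num)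
          linarith
        have f3 : 0 ≤ ∑ v ∈ B, ((AntiSid.ch par S r v).card : ℝ) :=
          Finset.sum_nonneg fun v _ => Nat.cast_nonneg _
        have f4 := mul_le_mul_of_nonneg_right f2 f3
        linarith
      have e3 : τ r ≤ 0 := by
        rw [e1]
        linarith
      have e4 : ∀ y, F r y ≤ 1 := fun y => (h14 y).2.trans (Real.exp_le_one_iff.2 e3)
      unfold av
      have hpos : (0 : ℝ) < Fintype.card W := by exact_mod_cast Fintype.card_pos
      rw [div_le_one hpos]
      calc ∑ y, F r y ≤ ∑ _y : W, (1 : ℝ) := Finset.sum_le_sum fun y _ => e4 y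
        _ = Fintype.card W := by simp
  have hpos : 0 ≤ (Fintype.card W : ℝ) ^ (Fintype.card V) * (1 / 2) ^ (S.card - 1) := by
    positivity
  calc (Fintype.card W : ℝ) ^ (Fintype.card V) * (1 / 2) ^ (S.card - 1) * av (F r)
      ≤ (Fintype.card W : ℝ) ^ (Fintype.card V) * (1 / 2) ^ (S.card - 1) * 1 :=
        mul_le_mul_of_nonneg_left hmain hpos
    _ = _ := mul_one _

end Pool.Agent.TBL
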