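import Pool.Agent.TBL.Targets

set_option autoImplicit false

/-!
# The description of a vertex of a thread, all edges directed away from the root
-/

namespace Pool.Agent.TBL

open Finset Polynomial
open Pool.Agent.TLT
open scoped BigOperators

noncomputable section

namespace DSQ_

theorem gm_succ (j : ℕ) (a : ℝ[X]) :
    gm (j + 1) + X ^ (j + 1) * a = 1 + X * (gm j + X ^ j * a) := by
  unfold gm
  rw [Finset.sum_range_succ', pow_zero, mul_add, Finset.mul_sum, pow_succ]
  have : ∑ i ∈ range j, (X : ℝ[X]) ^ (i + 1) = ∑ i ∈ range j, X * X ^ i :=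
    Finset.sum_congr rfl fun i _ => by rw [pow_succ]; ring
  rw [this]
  ring

end DSQ_

open DSQ_ in
theorem p_DSQ : T_DSQ := by
  intro V _ _ par dep S r hR W _ K F a hF ha
  obtain ⟨N, hN⟩ : ∃ N : ℕ, ∀ v : V, dep v ≤ N :=
    ⟨univ.sup dep, fun v => Finset.le_sup (mem_univ v)⟩
  suffices h : ∀ m : ℕ, ∀ v ∈ S, v ≠ r → N + 1 ≤ dep v + m → ∃ (j : ℕ) (b : V),
      b ∈ Bs par S r ∧ b ≠ r ∧ F v = (Kd K true)^[j] (F b) ∧ a v = gm j + X ^ j * a b ∧
      dep v + j ≤ dep b ∧ ∀ (τ : V → ℝ) (ρ : ℝ), (∀ u ∈ S, u ∉ Bs par S r →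
        τ u = ρ + ∑ c ∈ AntiSid.ch par S r u, τ c) → τ v = j * ρ + τ b from
    fun v hv hvr => h (N + 1) v hv hvr (by omega)
  intro m
  induction m with
  | zero =>
    intro v hv hvr hm
    have := hN v
    omega
  | succ m ih =>
    intro v hv hvr hm
    by_cases h1 : (AntiSid.ch par S r v).card = 1
    · obtain ⟨c, hc⟩ := card_eq_one.mp h1
      have hcm : c ∈ AntiSid.ch par S r v := by rw [hc]; exact mem_singleton_self c
      have hcm' := hcm
      unfold AntiSid.ch at hcm'
      rw [mem_filter] at hcm'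
      obtain ⟨hcS, hcr, hcv⟩ := hcm'
      have hdep : dep v < dep c := by
        have := hR.hdep c hcS hcr
        rwa [hcv] at this
      obtain ⟨j, b, hb, hbr, hFj, haj, hdj, hτ⟩ := ih c hcS hcr (by omega)
      have hvB : v ∉ Bs par S r := by
        unfold Bs
        rw [mem_filter]
        rintro ⟨-, h | h⟩
        · exact hvr h
        · exact h h1
      refine ⟨j + 1, b, hb, hbr, ?_, ?_, by omega, ?_⟩
      · rw [hF v hv, hc, Function.iterate_succ_apply', ← hFj]
        funext x
        rw [prod_singleton]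
      · rw [ha v hv, hc, sum_singleton, gm_succ, haj]
      · intro τ ρ h
        rw [h v hv hvB, hc, sum_singleton, hτ τ ρ h]
        push_cast
        ring
    · refine ⟨0, v, ?_, hvr, rfl, by simp [gm], le_rfl, fun τ ρ _ => by simp⟩
      unfold Bs
      rw [mem_filter]
      exact ⟨hv, Or.inr h1⟩

end

end Pool.Agent.TBL
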