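import Pool.Agent.TBL.Targets
import Pool.Agent.TLT.FIN

set_option autoImplicit false

/-!
# FINQ: the final theorem for trees as simple graphs
-/

namespace Pool.Agent.TBL

open Finset Polynomial
open Pool.Agent.TLT
open scoped BigOperators

noncomputable section

set_option linter.unusedSectionVars false

open Pool.Agent.TLT.FIN_ in
theorem p_FINQ (h1 : T_CORQ) (h2 : T_RED) : T_FINQ := by
  intro V _ _ T hT C hC hodd heven m hleaf hbig r hrC
  obtain ⟨par, hb, ha1, ha2⟩ := AntiSid.exists_parent hT r
  have hadj : ∀ u v, T.Adj u v → (u ≠ r ∧ par u = v) ∨ (v ≠ r ∧ par v = u) :=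
    fun u v huv => AntiSid.adj_iff_parent hT r par ha1 ha2 huv
  have hclosed := closed_par hC r hrC par hadj
  set dep : V → ℕ := fun v => T.dist v r with hdep
  have hdist1 : ∀ v, T.dist v (par v) ≤ 1 := by
    intro v
    by_cases hv : v = r
    · subst hv; rw [hb, SimpleGraph.dist_self]; omega
    · have := SimpleGraph.dist_le (ha1 v hv).toWalk
      simpa using this
  have hexact : ∀ v, v ≠ r → dep v = dep (par v) + 1 := by
    intro v hv
    have h3 := ha2 v hv
    have h4 := hT.1.dist_triangle (u := v) (v := par v) (w := r)
    have h5 := hdist1 v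
    simp only [hdep]
    omega
  have hdeple : ∀ v, dep (par v) ≤ dep v := by
    intro v
    by_cases hv : v = r
    · subst hv; rw [hb]
    · have := hexact v hv; omega
  set Cf : Finset V := (Set.toFinite C).toFinset with hCf
  have hmem : ∀ v, v ∈ Cf ↔ v ∈ C := fun v => by simp [hCf]
  -- degrees
  have hdegC : ∀ v ∈ C, v ≠ r →
      {w | T.Adj v w ∧ w ∈ C}.ncard = (AntiSid.ch par Cf r v).card + 1 := by
    intro v hv hvr
    have hN : {w | T.Adj v w ∧ w ∈ C} =
        insert (par v) ((AntiSid.ch par Cf r v : Finset V) : Set V) := by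
      ext u
      simp only [AntiSid.ch, Finset.coe_filter, hmem, Set.mem_insert_iff, Set.mem_ofPred_eq]
      constructor
      · rintro ⟨huv, huC⟩
        rcases hadj v u huv with h | h
        · left; exact h.2.symm
        · right; exact ⟨huC, h⟩
      · rintro (rfl | ⟨h3, h4, h5⟩)
        · exact ⟨ha1 v hvr, hclosed v hv hvr⟩
        · have := ha1 u h4
          rw [h5] at this
          exact ⟨this.symm, h3⟩
    have hnm : par v ∉ ((AntiSid.ch par Cf r v : Finset V) : Set V) := by
      intro hm
      simp only [AntiSid.ch, Finset.coe_filter, Set.mem_ofPred_eq] at hm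
      have h3 := hexact v hvr
      have h4 := hexact (par v) hm.2.1
      rw [hm.2.2] at h4
      omega
    rw [hN, Set.ncard_insert_of_notMem hnm, Set.ncard_coe_finset]
  have hdegR : {w | T.Adj r w ∧ w ∈ C}.ncard = (AntiSid.ch par Cf r r).card := by
    have hN : {w | T.Adj r w ∧ w ∈ C} = ((AntiSid.ch par Cf r r : Finset V) : Set V) := by
      ext u
      simp only [AntiSid.ch, Finset.coe_filter, hmem, Set.mem_ofPred_eq]
      constructor
      · rintro ⟨huv, huC⟩
        rcases hadj r u huv with h | h
        · exact absurd rfl h.1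
        · exact ⟨huC, h⟩
      · rintro ⟨h3, h4, h5⟩
        have := ha1 u h4
        rw [h5] at this
        exact ⟨this.symm, h3⟩
    rw [hN, Set.ncard_coe_finset]
  have hN : ∀ v, v ≠ r → (T.neighborSet v).ncard = (AntiSid.ch par Finset.univ r v).card + 1 := by
    intro v hvb
    have hN : T.neighborSet v =
        insert (par v) ((AntiSid.ch par Finset.univ r v : Finset V) : Set V) := by
      ext u
      simp only [SimpleGraph.mem_neighborSet, AntiSid.ch, Finset.mem_univ, Finset.coe_filter,
        true_and, Set.mem_insert_iff, Set.mem_ofPred_eq]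
      constructor
      · intro huv
        rcases hadj v u huv with h | h
        · left; exact h.2.symm
        · right; exact h
      · rintro (rfl | ⟨h3, h4⟩)
        · exact ha1 v hvb
        · have := ha1 u h3
          rw [h4] at this
          exact this.symm
    have hnm : par v ∉ ((AntiSid.ch par Finset.univ r v : Finset V) : Set V) := by
      intro hm
      simp only [AntiSid.ch, Finset.mem_univ, Finset.coe_filter, true_and, Set.mem_ofPred_eq] at hm
      have h3 := hexact v hvb
      have h4 := hexact (par v) hm.1
      rw [hm.2] at h4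
      omega
    rw [hN, Set.ncard_insert_of_notMem hnm, Set.ncard_coe_finset]
  -- core
  have hRtC : Rt par dep Cf r := by
    refine ⟨(hmem r).2 hrC, ?_, ?_⟩
    · intro v hv hvr
      exact (hmem _).2 (hclosed v ((hmem v).1 hv) hvr)
    · intro v _ hvr
      have := hexact v hvr
      omega
  have hleaf' : (Cf.filter fun v => AntiSid.ch par Cf r v = ∅).card ≤ m := by
    refine le_trans ?_ hleaf
    rw [← Set.ncard_coe_finset]
    refine Set.ncard_le_ncard ?_ (Set.toFinite _)
    intro v hv
    simp only [Finset.coe_filter, Set.mem_ofPred_eq, hmem] at hv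
    refine ⟨hv.1, ?_⟩
    by_cases hvr : v = r
    · subst hvr
      rw [hdegR, hv.2]
      simp
    · rw [hdegC v hv.1 hvr, hv.2]
      simp
  have hbig' : 10 ^ (9 * m + 4) ≤ Cf.card := by
    rw [hCf, ← Set.ncard_eq_toFinset_card]
    exact hbig
  have ho := h1 V par dep Cf r hRtC m hleaf' hbig'
  have hRtU : Rt par dep Finset.univ r := by
    refine ⟨Finset.mem_univ _, fun _ _ _ => Finset.mem_univ _, ?_⟩
    intro v _ hvr
    have := hexact v hvr
    omega
  have hev : ∀ v ∈ (Finset.univ : Finset V),
      Even ((AntiSid.ch par Finset.univ r v).filter fun c => c ∉ Cf).card := by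
    intro v _
    by_cases hvC : v ∈ C
    · have h3 := heven v hvC
      have h4 : {u | T.Adj v u ∧ u ∉ C} =
          (((AntiSid.ch par Finset.univ r v).filter fun c => c ∉ Cf : Finset V) : Set V) := by
        ext u
        simp only [AntiSid.ch, Finset.coe_filter, Finset.mem_filter, hmem, Finset.mem_univ,
          true_and, Set.mem_ofPred_eq]
        constructor
        · rintro ⟨h5, h6⟩
          rcases hadj v u h5 with h | h
          · exfalso
            apply h6
            rw [← h.2]
            exact hclosed v hvC h.1
          · exact ⟨h, h6⟩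
        · rintro ⟨⟨h5, h6⟩, h7⟩
          have := ha1 u h5
          rw [h6] at this
          exact ⟨this.symm, h7⟩
      rw [h4, Set.ncard_coe_finset] at h3
      exact h3
    · have hvr : v ≠ r := by
        rintro rfl
        exact hvC hrC
      have h3 := hodd v hvC
      rw [hN v hvr] at h3
      have h4 : (AntiSid.ch par Finset.univ r v).filter (fun c => c ∉ Cf) =
          AntiSid.ch par Finset.univ r v := by
        apply Finset.filter_true_of_mem
        intro u hu huC
        simp only [AntiSid.ch, Finset.mem_filter, Finset.mem_univ, true_and] at hu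
        apply hvC
        rw [← hu.2]
        exact hclosed u ((hmem u).1 huC) hu.1
      rw [h4]
      rwa [Nat.odd_add_one, Nat.not_odd_iff_even] at h3
  obtain ⟨o', hoo, hgood⟩ := h2 V par dep Finset.univ Cf r hRtU (fun v _ hv => hexact v hv)
    (Finset.subset_univ _) ((hmem r).2 hrC)
    (fun v hv hvr => (hmem _).2 (hclosed v ((hmem v).1 hv) hvr)) hev (fun _ => false) ho
  refine ⟨AntiSid.dirOf r par o', ?_, ?_, ?_, ?_⟩
  · intro u v huv
    rcases hadj u v huv with h | h
    · cases hou : o' u
      · right; right; exact ⟨h.1, h.2, hou⟩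
      · left; left; exact ⟨h.1, h.2, hou⟩
    · cases hov : o' v
      · left; right; exact ⟨h.1, h.2, hov⟩
      · right; left; exact ⟨h.1, h.2, hov⟩
  · intro u v huv
    constructor
    · rcases huv with ⟨h3, h4, _⟩ | ⟨h3, h4, _⟩
      · rw [← h4]; exact ha1 u h3
      · rw [← h4]; exact (ha1 v h3).symm
    · intro hvu
      rcases huv with ⟨h3, h4, h5⟩ | ⟨h3, h4, h5⟩ <;> rcases hvu with ⟨h6, h7, h8⟩ | ⟨h6, h7, h8⟩
      · have h9 := hexact u h3
        have h10 := hexact v h6
        rw [h4] at h9; rw [h7] at h10; omega
      · rw [h5] at h8; exact Bool.noConfusion h8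
      · rw [h5] at h8; exact Bool.noConfusion h8
      · have h9 := hexact v h3
        have h10 := hexact u h6
        rw [h4] at h9; rw [h7] at h10; omega
  · intro u hu v _ huv
    rcases huv with ⟨_, _, h5⟩ | ⟨h3, h4, _⟩
    · exfalso
      rw [hoo u ((hmem u).2 hu)] at h5
      exact Bool.noConfusion h5
    · have h6 := hexact v h3
      rw [h4] at h6
      simp only [hdep] at h6
      rw [SimpleGraph.dist_comm, h6, SimpleGraph.dist_comm]
  · intro W _ G hne hG
    classical
    have h3 := hgood W G hne hG
    have h4 : ∑ f : V → W, AntiSid.FS G par o' Finset.univ r f =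
        ({f : V → W | ∀ u v, AntiSid.dirOf r par o' u v → G (f u) (f v)}.ncard : ℝ) := by
      rw [Finset.sum_congr rfl fun f _ => AntiSid.FS_eq W G r par o' f, Finset.sum_boole]
      congr 1
      rw [← Set.ncard_coe_finset]
      congr 1
      ext f
      simp
    rw [h4] at h3
    have h5 : T.edgeSet.ncard = Fintype.card V - 1 := by
      have h6 := hT.card_edgeFinset
      have h7 : T.edgeSet.ncard = T.edgeFinset.card := by
        rw [← Set.ncard_coe_finset]
        congr 1
        simp
      omega
    rw [h5]
    simpa using h3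

end

end Pool.Agent.TBL
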