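import Pool.Agent.TBL.Targets

set_option autoImplicit false

/-!
# Trees with few leaves in tournaments (MP_d27362_co): recursion on a rooted tree
-/

namespace Pool.Agent.TBL

open Finset Polynomial
open Pool.Agent.TLT
open scoped BigOperators

theorem p_FIX : T_FIX := by
  intro V _ _ par dep S r h α _ Φ hΦ
  obtain ⟨step, hstep⟩ : ∃ step : (V → α) → (V → α), step = fun f v => Φ v f := ⟨_, rfl⟩
  obtain ⟨D, hD⟩ : ∃ D : ℕ, D = S.sup dep := ⟨_, rfl⟩
  obtain ⟨f0, -⟩ : ∃ f0 : V → α, True := ⟨fun _ => Classical.arbitrary α, trivial⟩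
  have key : ∀ k : ℕ, ∀ v ∈ S, D + 1 ≤ dep v + k →
      step^[k + 1] f0 v = step^[k] f0 v := by
    intro k
    induction k with
    | zero =>
      intro v hv h1
      have h2 : dep v ≤ D := by rw [hD]; exact Finset.le_sup (f := dep) hv
      exact absurd h2 (by omega)
    | succ k ih =>
      intro v hv h1
      rw [Function.iterate_succ_apply', Function.iterate_succ_apply' step k]
      have e1 : ∀ f : V → α, step f v = Φ v f := by intro f; rw [hstep]
      rw [e1, e1]
      apply hΦ v hv
      intro c hc
      rw [← Function.iterate_succ_apply' step k]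
      simp only [AntiSid.ch, Finset.mem_filter] at hc
      obtain ⟨hcS, hcr, hcv⟩ := hc
      have h2 := h.hdep c hcS hcr
      rw [hcv] at h2
      exact ih c hcS (by omega)
  refine ⟨step^[D + 1] f0, fun v hv => ?_⟩
  have h3 := key (D + 1) v hv (by omega)
  rw [Function.iterate_succ_apply'] at h3
  have e1 : ∀ f : V → α, step f v = Φ v f := by intro f; rw [hstep]
  rw [e1] at h3
  exact h3.symm

end Pool.Agent.TBL
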