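import Pool.Agent.TBL.Targets

set_option autoImplicit false

/-!
# Trees with few leaves in tournaments (MP_d27362_co): irregular tournaments
-/

namespace Pool.Agent.TBL

open Finset Polynomial
open Pool.Agent.TLT
open scoped BigOperators

namespace FRQ_

lemma av_mono {W : Type} [Fintype W] {f g : W → ℝ} (h : ∀ y, f y ≤ g y) : av f ≤ av g := by
  unfold av
  exact div_le_div_of_nonneg_right (Finset.sum_le_sum fun y _ => h y) (Nat.cast_nonneg _)

lemma av_smul {W : Type} [Fintype W] (c : ℝ) (f : W → ℝ) : (av fun y => c * f y) = c * av f := by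
  unfold av
  rw [← Finset.mul_sum, mul_div_assoc]

lemma Kd_nonneg {W : Type} [Fintype W] {K : W → W → ℝ} (hK : Krn K) (b : Bool) {f : W → ℝ}
    (hf : ∀ y, 0 ≤ f y) (x : W) : 0 ≤ Kd K b f x := by
  unfold Kd av
  apply div_nonneg _ (Nat.cast_nonneg _)
  refine Finset.sum_nonneg fun y _ => mul_nonneg ?_ (hf y)
  split_ifs
  · exact hK.nonneg _ _
  · exact hK.nonneg _ _

lemma iter_nonneg {W : Type} [Fintype W] {K : W → W → ℝ} (hK : Krn K) {f : W → ℝ}
    (hf : ∀ y, 0 ≤ f y) (j : ℕ) : ∀ y, 0 ≤ ((Kd K true)^[j] f) y := by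
  induction j with
  | zero => simpa using hf
  | succ j ih =>
    intro y
    rw [Function.iterate_succ_apply']
    exact Kd_nonneg hK true ih y

lemma Kd_smul {W : Type} [Fintype W] (K : W → W → ℝ) (c : ℝ) (f : W → ℝ) :
    Kd K true (fun y => c * f y) = fun x => c * Kd K true f x := by
  funext x
  unfold Kd
  rw [← av_smul]
  congr 1
  funext y
  ring

lemma iter_smul {W : Type} [Fintype W] (K : W → W → ℝ) (c : ℝ) (j : ℕ) :
    (Kd K true)^[j] (fun _ => c) = fun x => c * ((Kd K true)^[j] fun _ => 1) x := by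
  induction j with
  | zero => funext x; simp
  | succ j ih =>
    rw [Function.iterate_succ_apply', Function.iterate_succ_apply', ih, Kd_smul]

end FRQ_

open FRQ_ in
theorem p_FRQ (h1 : T_BAS) (h2 : T_DECAY) : T_FRQ := by
  intro W _ _ K hK hx F U hF j y
  obtain ⟨hS, -, -, -, -, hmono, h2av, -, -⟩ := h1 W K hK
  have hcard : (Fintype.card W : ℝ) ≠ 0 := by exact_mod_cast Fintype.card_ne_zero
  have hone : av (fun _ : W => (1 : ℝ)) = 1 := by
    unfold av
    simp [hcard]
  have hU : 0 ≤ U := (hF y).1.trans (hF y).2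
  have hxx : xx K ≤ 1 := by
    unfold xx
    rw [← hone]
    refine av_mono fun x => ?_
    have h3 := hS (fun _ => 1) x
    have h4 : (av fun _ : W => |(1 : ℝ)|) = 1 := by simpa using hone
    rw [h4] at h3
    have h5 : |dl K x| ≤ 1 := h3
    exact (sq_le_one_iff_abs_le_one _).2 h5
  have hdec := h2 W K hK j
  obtain ⟨m, hm⟩ : ∃ m : ℝ, m = av ((Kd K true)^[j] fun _ => 1) := ⟨_, rfl⟩
  rw [← hm] at hdec
  have hm0 : 0 ≤ m := by
    rw [hm]
    unfold av
    exact div_nonneg (Finset.sum_nonneg fun y _ => iter_nonneg hK (fun _ => zero_le_one) j y)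
      (Nat.cast_nonneg _)
  have hpow : (1 - xx K / 6) ^ j ≤ Real.exp (-(j / 120000)) ^ 2 := by
    have h3 : (1 - xx K / 6) ^ j ≤ Real.exp (-(xx K / 6)) ^ j :=
      pow_le_pow_left₀ (by linarith) (Real.one_sub_le_exp_neg _) j
    refine h3.trans ?_
    rw [← Real.exp_nat_mul, ← Real.exp_nat_mul, Real.exp_le_exp]
    have hj : (0 : ℝ) ≤ j := Nat.cast_nonneg _
    push_cast
    nlinarith
  have hm1 : m ≤ 3 / 2 * Real.exp (-(j / 120000)) := by
    have h3 : m ^ 2 ≤ (3 / 2 * Real.exp (-(j / 120000))) ^ 2 := by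
      rw [mul_pow]
      have h4 : 0 ≤ Real.exp (-((j : ℝ) / 120000)) ^ 2 := sq_nonneg _
      nlinarith
    exact le_of_sq_le_sq h3 (by positivity)
  have hle : ∀ i : ℕ, ∀ y, ((Kd K true)^[i] F) y ≤ ((Kd K true)^[i] fun _ => U) y := by
    intro i
    induction i with
    | zero => intro y; exact (hF y).2
    | succ i ih =>
      intro y
      rw [Function.iterate_succ_apply', Function.iterate_succ_apply']
      exact hmono true _ _ ih y
  have hnn := iter_nonneg hK (fun y => (hF y).1) j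
  have hav : av ((Kd K true)^[j] F) ≤ U * m := by
    refine (av_mono (hle j)).trans (le_of_eq ?_)
    rw [iter_smul, hm]
    exact av_smul U _
  refine ⟨Kd_nonneg hK true hnn y, ?_⟩
  have h3 := h2av true ((Kd K true)^[j] F) y
  have h4 : (av fun y => |((Kd K true)^[j] F) y|) = av ((Kd K true)^[j] F) := by
    congr 1
    funext z
    exact abs_of_nonneg (hnn z)
  rw [h4] at h3
  have h5 : U * m ≤ U * (3 / 2 * Real.exp (-(j / 120000))) := mul_le_mul_of_nonneg_left hm1 hU
  linarith

end Pool.Agent.TBL
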