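import Pool.Agent.TBL.Targets

set_option autoImplicit false

/-!
# NAS: the square norm of a sum of polynomials
-/

namespace Pool.Agent.TBL

open Finset Polynomial
open Pool.Agent.TLT
open scoped BigOperators

theorem p_NAS (h1 : T_NA) : T_NAS := by
  obtain ⟨_, _, h3, _⟩ := h1
  intro V s p
  obtain ⟨N, hN1, hN2⟩ : ∃ N : ℕ, (∀ i ∈ s, (p i).natDegree < N) ∧
      (∑ i ∈ s, p i).natDegree < N := by
    refine ⟨(∑ i ∈ s, ((p i).natDegree + 1)) + ((∑ i ∈ s, p i).natDegree + 1), ?_, ?_⟩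
    · intro i hi
      have := single_le_sum (f := fun i => (p i).natDegree + 1) (fun _ _ => Nat.zero_le _) hi
      have h4 : (p i).natDegree + 1 ≤ ∑ i ∈ s, ((p i).natDegree + 1) := this
      omega
    · omega
  rw [h3 _ N hN2, sum_congr rfl fun i hi => h3 (p i) N (hN1 i hi), sum_comm, mul_sum]
  refine sum_le_sum fun k _ => ?_
  rw [finsetSum_coeff, ← sum_mul, ← mul_assoc]
  refine mul_le_mul_of_nonneg_right ?_ (by positivity)
  exact sq_sum_le_card_mul_sum_sq

end Pool.Agent.TBL
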