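import Pool.Agent.TBL.Targets

set_option autoImplicit false

/-!
# TBL: the root (RTQ)
-/

namespace Pool.Agent.TBL

open Finset Polynomial
open Pool.Agent.TLT
open scoped BigOperators

namespace RTQ_

variable {W : Type} [Fintype W]

lemma av_mono {f g : W → ℝ} (h : ∀ y, f y ≤ g y) : av f ≤ av g := by
  unfold av
  exact div_le_div_of_nonneg_right (Finset.sum_le_sum fun y _ => h y) (Nat.cast_nonneg _)

lemma av_nonneg {f : W → ℝ} (h : ∀ y, 0 ≤ f y) : 0 ≤ av f := by
  unfold av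
  exact div_nonneg (Finset.sum_nonneg fun y _ => h y) (Nat.cast_nonneg _)

lemma av_lin [Nonempty W] (M : ℝ) (p n : W → ℝ) :
    av (fun y => M * (1 + p y + n y)) = M * (1 + av p + av n) := by
  unfold av
  have hc : (Fintype.card W : ℝ) ≠ 0 := Nat.cast_ne_zero.2 Fintype.card_ne_zero
  rw [← Finset.mul_sum, Finset.sum_add_distrib, Finset.sum_add_distrib, Finset.sum_const,
    Finset.card_univ, nsmul_eq_mul]
  field_simp

end RTQ_

open RTQ_

theorem p_RTQ (h1 : T_NA) (h2 : T_PV) : T_RTQ := by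
  intro W _ _ K hK F a Λ β hΛ hβ hI
  obtain ⟨hF, M, n, hM, hn, hFM, hlog⟩ := hI
  have hA : 0 ≤ nA a := h1.1 a
  have hx : 0 ≤ xx K := av_nonneg fun y => sq_nonneg _
  have hnn : 0 ≤ av n := av_nonneg hn
  have hp : (av (pv K a)) ^ 2 ≤ 6 * nA a * xx K ^ 2 := (h2 W K hK a).2.1
  have hp2 : |av (pv K a)| ≤ 3 / 2 * (1 + nA a) * xx K := by
    apply abs_le_of_sq_le_sq
    · refine hp.trans ?_
      have h3 : 6 * nA a ≤ (3 / 2 * (1 + nA a)) ^ 2 := by nlinarith [sq_nonneg (nA a - 1)]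
      calc 6 * nA a * xx K ^ 2 ≤ (3 / 2 * (1 + nA a)) ^ 2 * xx K ^ 2 :=
            mul_le_mul_of_nonneg_right h3 (sq_nonneg _)
        _ = (3 / 2 * (1 + nA a) * xx K) ^ 2 := by ring
    · positivity
  have hPP : |av (pv K a)| + av n ≤ 2 * PP K a (av n) := by
    unfold PP
    have h4 : 0 ≤ (1 + nA a) * xx K := by positivity
    nlinarith
  have hPP0 : 0 ≤ PP K a (av n) := by
    unfold PP
    positivity
  have h5 : av F ≤ M * (1 + av (pv K a) + av n) := by
    rw [← av_lin]
    exact av_mono hFM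
  have h6 : 1 + av (pv K a) + av n ≤ Real.exp (2 * PP K a (av n)) := by
    have h7 := Real.add_one_le_exp (2 * PP K a (av n))
    have h8 := le_abs_self (av (pv K a))
    linarith
  calc av F ≤ M * (1 + av (pv K a) + av n) := h5
    _ ≤ M * Real.exp (2 * PP K a (av n)) := mul_le_mul_of_nonneg_left h6 hM.le
    _ = Real.exp (Real.log M + 2 * PP K a (av n)) := by rw [Real.exp_add, Real.exp_log hM]
    _ ≤ Real.exp 0 := by
        apply Real.exp_le_exp.2
        have h9 : 2 * PP K a (av n) ≤ Λ * PP K a (av n) := mul_le_mul_of_nonneg_right hΛ hPP0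
        linarith
    _ = 1 := Real.exp_zero

end Pool.Agent.TBL
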