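import Pool.Agent.TBL.Targets

set_option autoImplicit false

/-!
# Trees with few leaves in tournaments (MP_d27362_co): the invariant at a vertex
-/

namespace Pool.Agent.TBL

open Finset Polynomial
open Pool.Agent.TLT
open scoped BigOperators

namespace STQ_

lemma Kd_nonneg {W : Type} [Fintype W] {K : W → W → ℝ} (hK : Krn K) (b : Bool) {f : W → ℝ}
    (hf : ∀ y, 0 ≤ f y) (x : W) : 0 ≤ Kd K b f x := by
  unfold Kd av
  apply div_nonneg _ (Nat.cast_nonneg _)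
  refine Finset.sum_nonneg fun y _ => mul_nonneg ?_ (hf y)
  split_ifs
  · exact hK.nonneg _ _
  · exact hK.nonneg _ _

lemma iter_nonneg {W : Type} [Fintype W] {K : W → W → ℝ} (hK : Krn K) {f : W → ℝ}
    (hf : ∀ y, 0 ≤ f y) (j : ℕ) : ∀ y, 0 ≤ ((Kd K true)^[j] f) y := by
  induction j with
  | zero => simpa using hf
  | succ j ih =>
    intro y
    rw [Function.iterate_succ_apply']
    exact Kd_nonneg hK true ih y

lemma av_nonneg {W : Type} [Fintype W] {f : W → ℝ} (hf : ∀ y, 0 ≤ f y) : 0 ≤ av f := by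
  unfold av
  exact div_nonneg (Finset.sum_nonneg fun y _ => hf y) (Nat.cast_nonneg _)

lemma xx_nonneg {W : Type} [Fintype W] (K : W → W → ℝ) : 0 ≤ xx K := by
  unfold xx
  exact av_nonneg fun y => sq_nonneg _

/-- numerical facts about the constant -/
lemma cc_facts (q : ℕ) : (1 : ℝ) + 4 * q ^ 2 + 16 * q * 3 ^ q ≤ cc q ∧
    (q : ℝ) + 1648 * 3 ^ q ≤ cc q ∧ (q : ℝ) ≤ cc q ∧ 0 ≤ cc q := by
  unfold cc
  have h1 : (q : ℝ) ≤ 2 ^ q := by exact_mod_cast (Nat.lt_two_pow_self).le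
  have hq : (0 : ℝ) ≤ q := Nat.cast_nonneg q
  have h3 : (0 : ℝ) < 3 ^ q := by positivity
  have h6 : (2 : ℝ) ^ q * 3 ^ q = 6 ^ q := by rw [← mul_pow]; norm_num
  have h4 : (q : ℝ) * 3 ^ q ≤ 6 ^ q := by
    rw [← h6]
    exact mul_le_mul_of_nonneg_right h1 h3.le
  have h5 : (q : ℝ) ^ 2 ≤ 6 ^ q := by
    have e1 : (q : ℝ) ^ 2 ≤ (2 ^ q) ^ 2 := pow_le_pow_left₀ hq h1 2
    have e2 : ((2 : ℝ) ^ q) ^ 2 = 4 ^ q := by rw [← pow_mul, mul_comm, pow_mul]; norm_num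
    have e3 : (4 : ℝ) ^ q ≤ 6 ^ q := pow_le_pow_left₀ (by norm_num) (by norm_num) q
    linarith
  have h7 : (3 : ℝ) ^ q ≤ 6 ^ q := pow_le_pow_left₀ (by norm_num) (by norm_num) q
  have h8 : (2 : ℝ) ^ q ≤ 6 ^ q := pow_le_pow_left₀ (by norm_num) (by norm_num) q
  have h9 : (1 : ℝ) ≤ 6 ^ q := one_le_pow₀ (by norm_num)
  refine ⟨?_, ?_, ?_, ?_⟩
  · linarith
  · linarith
  · linarith
  · linarith

/-- the final arithmetic -/
lemma final (x c q q3 L SP B lM lth A nv : ℝ) (hx : 0 ≤ x) (hSP : 0 ≤ SP) (hL : 1000 ≤ L)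
    (hc1 : 1 + 4 * q ^ 2 + 16 * q * q3 ≤ c) (hc2 : q + 1648 * q3 ≤ c) (hc3 : q ≤ c)
    (hc0 : 0 ≤ c)
    (h1 : lM ≤ B - (c + 1) * L * SP + 400 * SP) (h2 : lth ≤ q * (2 * x) + 400 * SP)
    (h3 : A ≤ q * (q * (4 * x) + SP)) (h4 : nv ≤ 4 * q3 * (q * (4 * x) + 412 * SP)) :
    lM + lth + L * (x + A + nv) ≤ B + 2 * L * c * x := by
  have e1 : x + A + nv ≤ c * x + c * SP := by
    have f1 := mul_le_mul_of_nonneg_right hc1 hx
    have f2 := mul_le_mul_of_nonneg_right hc2 hSP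
    nlinarith
  have hL0 : 0 ≤ L := by linarith
  have e2 := mul_le_mul_of_nonneg_left e1 hL0
  have e3 : q * (2 * x) ≤ L * c * x := by
    have f1 : 2 * q ≤ L * c := by nlinarith
    have := mul_le_mul_of_nonneg_right f1 hx
    linarith
  have e4 : 800 * SP ≤ L * SP := mul_le_mul_of_nonneg_right (by linarith) hSP
  nlinarith

end STQ_

open STQ_ in
/-- the invariant at a vertex -/
theorem p_STQ (_h1 : T_NA) (h2 : T_NAS) (h3 : T_PVL) (h4 : T_BRQ) (h5 : T_CHN) : T_STQ := by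
  classical
  intro W _ _ K hK hx V s F a j β Λ hΛ hI
  have hx0 := xx_nonneg K
  obtain ⟨hc1, hc2, hc3, hc0⟩ := cc_facts s.card
  set c := cc s.card with hc
  have hch : ∀ i, ∃ (M : ℝ) (w : W → ℝ) (P : ℝ), i ∈ s → (0 < M ∧
      (∀ y, 0 ≤ ((Kd K true)^[j i] (F i)) y) ∧
      (∀ y, ((Kd K true)^[j i] (F i)) y ≤
        M * (1 + pv K (gm (j i) + X ^ (j i) * a i) y + w y)) ∧ 0 ≤ P ∧
      Real.log M ≤ β i - j i / 2 * xx K - (c + 1) * Λ * P + 400 * P ∧
      th (pv K (gm (j i) + X ^ (j i) * a i)) w ≤ 2 * xx K + 400 * P ∧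
      xx K * nA (1 + X * (gm (j i) + X ^ (j i) * a i)) ≤ 4 * xx K + P ∧
      (av fun y => (dl K y + Sop K (pv K (gm (j i) + X ^ (j i) * a i)) y) ^ 2) ≤
        2 * xx K + 12 * P) := by
    intro i
    by_cases hi : i ∈ s
    · obtain ⟨hF, M, n, hM, hn, hb, hl⟩ := hI i hi
      obtain ⟨M', w, g1, g2, g3, g4, g5, g6⟩ := h5 W K hK hx (F i) n (a i) M hM hn hb (j i)
      refine ⟨M', w, PP K (a i) (av n), fun _ => ⟨g1, iter_nonneg hK hF (j i), g2, ?_, ?_, g4,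
        g5, g6⟩⟩
      · unfold PP
        have e1 := _h1.1 (a i)
        have e2 := mul_nonneg (show (0 : ℝ) ≤ 1 + nA (a i) by linarith) hx0
        have e3 := av_nonneg hn
        linarith
      · linarith
    · exact ⟨1, 0, 0, fun h => absurd h hi⟩
  choose M w P hd using hch
  have hM : ∀ i ∈ s, 0 < M i := fun i hi => (hd i hi).1
  have hF0 : ∀ i ∈ s, ∀ y, 0 ≤ ((Kd K true)^[j i] (F i)) y := fun i hi => (hd i hi).2.1
  have hFM : ∀ i ∈ s, ∀ y, ((Kd K true)^[j i] (F i)) y ≤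
        M i * (1 + pv K (gm (j i) + X ^ (j i) * a i) y + w i y) := fun i hi => (hd i hi).2.2.1
  have hP0 : ∀ i ∈ s, 0 ≤ P i := fun i hi => (hd i hi).2.2.2.1
  have hlM : ∀ i ∈ s, Real.log (M i) ≤ β i - j i / 2 * xx K - (c + 1) * Λ * P i + 400 * P i :=
    fun i hi => (hd i hi).2.2.2.2.1
  have hth : ∀ i ∈ s, th (pv K (gm (j i) + X ^ (j i) * a i)) (w i) ≤ 2 * xx K + 400 * P i :=
    fun i hi => (hd i hi).2.2.2.2.2.1
  have hA1 : ∀ i ∈ s, xx K * nA (1 + X * (gm (j i) + X ^ (j i) * a i)) ≤ 4 * xx K + P i :=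
    fun i hi => (hd i hi).2.2.2.2.2.2.1
  have hsq : ∀ i ∈ s, (av fun y => (dl K y + Sop K (pv K (gm (j i) + X ^ (j i) * a i)) y) ^ 2) ≤
      2 * xx K + 12 * P i := fun i hi => (hd i hi).2.2.2.2.2.2.2
  clear hd
  obtain ⟨n, hn0, hnb, hnav⟩ := h4 W K hK V s (fun i => (Kd K true)^[j i] (F i))
    (fun i => pv K (gm (j i) + X ^ (j i) * a i)) w M hM hF0 hFM
  have hMpos : 0 < ∏ i ∈ s, M i := Finset.prod_pos hM
  refine ⟨fun y => Finset.prod_nonneg fun i hi => Kd_nonneg hK _ (hF0 i hi) y,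
    (∏ i ∈ s, M i) * Real.exp (∑ i ∈ s, th (pv K (gm (j i) + X ^ (j i) * a i)) (w i)), n,
    mul_pos hMpos (Real.exp_pos _), hn0, ?_, ?_⟩
  · intro y
    have e1 : (∑ i ∈ s, (1 + X * (gm (j i) + X ^ (j i) * a i))) =
        ∑ i ∈ s, (1 : ℝ) • (1 + X * (gm (j i) + X ^ (j i) * a i)) :=
      Finset.sum_congr rfl fun i _ => (one_smul ℝ _).symm
    have e2 := (h3 W K).2.1 V s (fun _ => 1) (fun i => 1 + X * (gm (j i) + X ^ (j i) * a i)) y
    have e3 : pv K (∑ i ∈ s, (1 + X * (gm (j i) + X ^ (j i) * a i))) y =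
        ∑ i ∈ s, (dl K y + Sop K (pv K (gm (j i) + X ^ (j i) * a i)) y) := by
      rw [e1, e2]
      refine Finset.sum_congr rfl fun i _ => ?_
      rw [one_mul, (h3 W K).1]
    rw [e3]
    exact hnb y
  · rw [Real.log_mul hMpos.ne' (Real.exp_pos _).ne', Real.log_exp,
      Real.log_prod (fun i hi => (hM i hi).ne')]
    have hSP0 : 0 ≤ ∑ i ∈ s, P i := Finset.sum_nonneg hP0
    have l1 : ∑ i ∈ s, Real.log (M i) ≤ (∑ i ∈ s, (β i - j i / 2 * xx K)) -
        (c + 1) * Λ * (∑ i ∈ s, P i) + 400 * (∑ i ∈ s, P i) := by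
      have e1 := Finset.sum_le_sum hlM
      rw [Finset.sum_add_distrib, Finset.sum_sub_distrib, ← Finset.mul_sum, ← Finset.mul_sum] at e1
      exact e1
    have l2 : ∑ i ∈ s, th (pv K (gm (j i) + X ^ (j i) * a i)) (w i) ≤
        (s.card : ℝ) * (2 * xx K) + 400 * (∑ i ∈ s, P i) := by
      have e1 := Finset.sum_le_sum hth
      rw [Finset.sum_add_distrib, Finset.sum_const, nsmul_eq_mul, ← Finset.mul_sum] at e1
      exact e1
    have l3 : xx K * nA (∑ i ∈ s, (1 + X * (gm (j i) + X ^ (j i) * a i))) ≤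
        (s.card : ℝ) * ((s.card : ℝ) * (4 * xx K) + ∑ i ∈ s, P i) := by
      have e1 := mul_le_mul_of_nonneg_left
        (h2 V s fun i => 1 + X * (gm (j i) + X ^ (j i) * a i)) hx0
      have e2 : xx K * ((s.card : ℝ) * ∑ i ∈ s, nA (1 + X * (gm (j i) + X ^ (j i) * a i))) =
          (s.card : ℝ) * ∑ i ∈ s, xx K * nA (1 + X * (gm (j i) + X ^ (j i) * a i)) := by
        rw [← Finset.mul_sum]
        ring
      rw [e2] at e1
      refine e1.trans (mul_le_mul_of_nonneg_left ?_ (Nat.cast_nonneg _))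
      have e3 := Finset.sum_le_sum hA1
      rw [Finset.sum_add_distrib, Finset.sum_const, nsmul_eq_mul] at e3
      exact e3
    have l4 : av n ≤ 4 * 3 ^ s.card * ((s.card : ℝ) * (4 * xx K) + 412 * ∑ i ∈ s, P i) := by
      refine hnav.trans (mul_le_mul_of_nonneg_left ?_ (by positivity))
      have e1 : ∀ i ∈ s, (th (pv K (gm (j i) + X ^ (j i) * a i)) (w i) + av fun y =>
          (dl K y + Sop K (pv K (gm (j i) + X ^ (j i) * a i)) y) ^ 2) ≤ 4 * xx K + 412 * P i := by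
        intro i hi
        have := hth i hi
        have := hsq i hi
        linarith
      have e3 : ∑ i ∈ s, (4 * xx K + 412 * P i) =
          (s.card : ℝ) * (4 * xx K) + 412 * ∑ i ∈ s, P i := by
        rw [Finset.sum_add_distrib, Finset.sum_const, nsmul_eq_mul, ← Finset.mul_sum]
      exact (Finset.sum_le_sum e1).trans_eq e3
    have hPP : PP K (∑ i ∈ s, (1 + X * (gm (j i) + X ^ (j i) * a i))) (av n) =
        xx K + xx K * nA (∑ i ∈ s, (1 + X * (gm (j i) + X ^ (j i) * a i))) + av n := by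
      unfold PP
      ring
    rw [hPP]
    exact final (xx K) c s.card (3 ^ s.card) Λ (∑ i ∈ s, P i) _ _ _ _ _ hx0 hSP0 hΛ hc1 hc2 hc3
      hc0 l1 l2 l3 l4

end Pool.Agent.TBL
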