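import Pool.Agent.TBL.Targets

set_option autoImplicit false

/-!
# SUM: the value at the root of a rooted tree
-/

namespace Pool.Agent.TBL

open Finset Polynomial
open Pool.Agent.TLT
open scoped BigOperators

/-- SUM -/
theorem p_SUM : T_SUM := by
  intro V _ _ par dep S r h ω tot ht
  have h1 : ∑ v ∈ S, ∑ c ∈ AntiSid.ch par S r v, tot c = ∑ c ∈ S.erase r, tot c := by
    have hm : ∀ c ∈ S.erase r, par c ∈ S := fun c hc =>
      h.hpar c (mem_of_mem_erase hc) (ne_of_mem_erase hc)
    rw [← sum_fiberwise_of_maps_to hm]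
    refine sum_congr rfl fun v _ => ?_
    refine sum_congr ?_ fun _ _ => rfl
    ext c
    simp only [AntiSid.ch, mem_filter, mem_erase]
    tauto
  have h2 : ∑ v ∈ S, tot v = ∑ v ∈ S, ω v + ∑ c ∈ S.erase r, tot c := by
    rw [← h1, ← sum_add_distrib]
    exact sum_congr rfl ht
  have h3 : ∑ c ∈ S.erase r, tot c + tot r = ∑ v ∈ S, tot v := sum_erase_add S tot h.hr
  linarith

end Pool.Agent.TBL
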