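import Pool.Agent.TLT.All
import Pool.Agent.TBL.NAS
import Pool.Agent.TBL.BRQ
import Pool.Agent.TBL.CHN
import Pool.Agent.TBL.STQ
import Pool.Agent.TBL.RTQ
import Pool.Agent.TBL.FRQ
import Pool.Agent.TBL.FIX
import Pool.Agent.TBL.SUM
import Pool.Agent.TBL.CNQ
import Pool.Agent.TBL.DSQ
import Pool.Agent.TBL.CORQ
import Pool.Agent.TBL.FINQ

set_option autoImplicit false

/-!
# Trees with few leaves in tournaments (MP_d27362_co): assembly
-/

namespace Pool.Agent.TBL

open Pool.Agent.TLT

/-- all targets together -/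
theorem final : T_FINQ := by
  have bas : T_BAS := p_BAS
  have nrm : T_NRM := p_NRM bas
  have tri : T_TRI := p_TRI
  have hh : T_HH := p_HH bas nrm
  have decay : T_DECAY := p_DECAY bas tri
  have na : T_NA := p_NA
  have pvl : T_PVL := p_PVL
  have pv : T_PV := p_PV bas nrm
  have geo : T_GEO := p_GEO bas nrm hh pv pvl
  have one : T_ONE := p_ONE bas pvl
  have hrec : T_REC := p_REC
  have thr : T_THR := p_THR bas na pv geo one hrec
  have nas : T_NAS := p_NAS na
  have brq : T_BRQ := p_BRQ bas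
  have chn : T_CHN := p_CHN na pv pvl geo thr
  have stq : T_STQ := p_STQ na nas pvl brq chn
  have rtq : T_RTQ := p_RTQ na pv
  have frq : T_FRQ := p_FRQ bas decay
  have corq : T_CORQ := p_CORQ p_KER p_ELIM p_FIX p_SUM p_CNQ p_DSQ stq rtq frq
  exact p_FINQ corq p_RED

end Pool.Agent.TBL
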