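import Pool.Agent.TBL.All

set_option autoImplicit false

namespace Pool.Agent.TBL.FewLeaves

/-- Let `T` be a finite tree and `C` a set of vertices inducing a connected subgraph such that
every vertex outside `C` has odd degree and every vertex of `C` has an even number of neighbours
outside `C`. If at most `m` vertices of `C` have at most one neighbour in `C`, and `C` has at
least `10 ^ (9 * m + 4)` vertices, then for every vertex `r` of `C` the tree `T` has an
orientation which is anti-Sidorenko in tournaments and in which every edge inside `C` is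
directed away from `r`. (For `C` the set of all vertices: every tree with at most `m` leaves and
at least `10 ^ (9 * m + 4)` vertices, all edges directed away from an arbitrary vertex.) -/
theorem result (n m : ℕ) (T : SimpleGraph (Fin n)) (hT : T.IsTree)
    (C : Set (Fin n)) (hC : (T.induce C).Connected)
    (hodd : ∀ v, v ∉ C → Odd (T.neighborSet v).ncard)
    (heven : ∀ v ∈ C, Even {u | T.Adj v u ∧ u ∉ C}.ncard)
    (hleaf : {v | v ∈ C ∧ {w | T.Adj v w ∧ w ∈ C}.ncard ≤ 1}.ncard ≤ m)
    (hbig : 10 ^ (9 * m + 4) ≤ C.ncard) (r : Fin n) (hr : r ∈ C) :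
    ∃ D : Fin n → Fin n → Prop,
      (∀ u v, T.Adj u v → (D u v ∨ D v u)) ∧
      (∀ u v, D u v → (T.Adj u v ∧ ¬ D v u)) ∧
      (∀ u ∈ C, ∀ v ∈ C, D u v → T.dist r v = T.dist r u + 1) ∧
      ∀ k : ℕ, ∀ G : Fin k → Fin k → Prop,
        (∀ a, ¬ G a a) →
        (∀ a b, a ≠ b → (G a b ↔ ¬ G b a)) →
        (({f : Fin n → Fin k | ∀ u v, D u v → G (f u) (f v)}.ncard : ℝ) / (k : ℝ) ^ n
          ≤ ((1 : ℝ) / 2) ^ (T.edgeSet.ncard)) := by
  obtain ⟨D, h1, h2, h3, h4⟩ :=
    Pool.Agent.TBL.final (Fin n) T hT C hC hodd heven m hleaf hbig r hr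
  refine ⟨D, h1, h2, h3, ?_⟩
  intro k G hG1 hG2
  rcases Nat.eq_zero_or_pos k with hk | hk
  · subst hk
    have hn : n ≠ 0 := by
      rintro rfl
      exact r.elim0
    simp [hn]
  · have h5 := h4 (Fin k) G ⟨⟨0, hk⟩⟩ ⟨hG1, hG2⟩
    simp only [Fintype.card_fin] at h5
    have hpos : (0 : ℝ) < (k : ℝ) ^ n := by positivity
    rw [div_le_iff₀ hpos]
    calc _ ≤ _ := h5
      _ = _ := by ring

end Pool.Agent.TBL.FewLeaves
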