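import Pool.Agent.TLT.Targets

set_option autoImplicit false

/-!
# Trees with few leaves in tournaments (MP_d27362_co): exact targets

Definitions: `Pool.Agent.TLT.Defs`.  Proofs: `Blueprint.lean.txt`.
-/

namespace Pool.Agent.TBL

open Finset Polynomial
open Pool.Agent.TLT
open scoped BigOperators

noncomputable section

/-- the constant of a vertex with `q` children -/
def cc (q : ℕ) : ℝ := 2000 * 6 ^ q

/-- The invariant: `F` is at most `M (1 + a(S) δ + n)` and `log M + Λ PP ≤ β`. -/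
def InvQ {W : Type} [Fintype W] (K : W → W → ℝ) (F : W → ℝ) (a : ℝ[X]) (Λ β : ℝ) : Prop :=
  (∀ y, 0 ≤ F y) ∧ ∃ (M : ℝ) (n : W → ℝ), 0 < M ∧ (∀ y, 0 ≤ n y) ∧
    (∀ y, F y ≤ M * (1 + pv K a y + n y)) ∧ Real.log M + Λ * PP K a (av n) ≤ β

/-- the root and the vertices that do not have exactly one child -/
def Bs {V : Type} [DecidableEq V] (par : V → V) (S : Finset V) (r : V) : Finset V :=
  S.filter fun v => v = r ∨ (AntiSid.ch par S r v).card ≠ 1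

/-! ## Block 1: analysis -/

/-- NAS (from T_NA): the square norm of a sum. -/
def T_NAS : Prop := ∀ (V : Type) (s : Finset V) (p : V → ℝ[X]),
  nA (∑ i ∈ s, p i) ≤ s.card * ∑ i ∈ s, nA (p i)

/-- BRQ (from T_BAS): a product of messages, all edges directed away from the root. -/
def T_BRQ : Prop := ∀ (W : Type) [Fintype W] [Nonempty W] (K : W → W → ℝ), Krn K →
  ∀ (V : Type) (s : Finset V) (u g w : V → W → ℝ) (M : V → ℝ),
  (∀ i ∈ s, 0 < M i) → (∀ i ∈ s, ∀ y, 0 ≤ u i y) →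
  (∀ i ∈ s, ∀ y, u i y ≤ M i * (1 + g i y + w i y)) →
  ∃ n : W → ℝ, (∀ y, 0 ≤ n y) ∧
    (∀ y, ∏ i ∈ s, Kd K true (u i) y ≤
      ((∏ i ∈ s, M i) * Real.exp (∑ i ∈ s, th (g i) (w i))) *
        (1 + ∑ i ∈ s, (dl K y + Sop K (g i) y) + n y)) ∧
    av n ≤ 4 * 3 ^ s.card * ∑ i ∈ s,
      (th (g i) (w i) + av fun y => (dl K y + Sop K (g i) y) ^ 2)

/-- CHN (from T_NA, T_PV, T_PVL, T_GEO, T_THR): a thread of arbitrary length. -/
def T_CHN : Prop := ∀ (W : Type) [Fintype W] [Nonempty W] (K : W → W → ℝ), Krn K →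
  xx K ≤ 1 / 10000 → ∀ (F n : W → ℝ) (a : ℝ[X]) (M : ℝ), 0 < M → (∀ y, 0 ≤ n y) →
  (∀ y, F y ≤ M * (1 + pv K a y + n y)) → ∀ j : ℕ, ∃ (M' : ℝ) (w : W → ℝ), 0 < M' ∧
    (∀ y, ((Kd K true)^[j] F) y ≤ M' * (1 + pv K (gm j + X ^ j * a) y + w y)) ∧
    Real.log M' ≤ Real.log M - j / 2 * xx K + 400 * PP K a (av n) ∧
    th (pv K (gm j + X ^ j * a)) w ≤ 2 * xx K + 400 * PP K a (av n) ∧
    xx K * nA (1 + X * (gm j + X ^ j * a)) ≤ 4 * xx K + PP K a (av n) ∧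
    (av fun y => (dl K y + Sop K (pv K (gm j + X ^ j * a)) y) ^ 2) ≤
      2 * xx K + 12 * PP K a (av n)

/-- STQ (from T_NA, T_NAS, T_PVL, T_BRQ, T_CHN): the invariant at a vertex. -/
def T_STQ : Prop := ∀ (W : Type) [Fintype W] [Nonempty W] (K : W → W → ℝ), Krn K →
  xx K ≤ 1 / 10000 → ∀ (V : Type) (s : Finset V) (F : V → W → ℝ) (a : V → ℝ[X]) (j : V → ℕ)
    (β : V → ℝ) (Λ : ℝ), 1000 ≤ Λ →
  (∀ i ∈ s, InvQ K (F i) (a i) ((cc s.card + 1) * Λ) (β i)) →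
  InvQ K (fun y => ∏ i ∈ s, Kd K true ((Kd K true)^[j i] (F i)) y)
    (∑ i ∈ s, (1 + X * (gm (j i) + X ^ (j i) * a i))) Λ
    (∑ i ∈ s, (β i - j i / 2 * xx K) + 2 * Λ * cc s.card * xx K)

/-- RTQ (from T_NA, T_PV): the root. -/
def T_RTQ : Prop := ∀ (W : Type) [Fintype W] [Nonempty W] (K : W → W → ℝ), Krn K →
  ∀ (F : W → ℝ) (a : ℝ[X]) (Λ β : ℝ), 2 ≤ Λ → β ≤ 0 → InvQ K F a Λ β → av F ≤ 1

/-- FRQ (from T_BAS, T_DECAY): irregular tournaments. -/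
def T_FRQ : Prop := ∀ (W : Type) [Fintype W] [Nonempty W] (K : W → W → ℝ), Krn K →
  1 / 10000 < xx K → ∀ (F : W → ℝ) (U : ℝ), (∀ y, 0 ≤ F y ∧ F y ≤ U) → ∀ (j : ℕ) (y : W),
  0 ≤ Kd K true ((Kd K true)^[j] F) y ∧
    Kd K true ((Kd K true)^[j] F) y ≤ 3 * (U * Real.exp (-(j / 120000)))

/-! ## Block 2: trees -/

/-- FIX: recursion on the tree. -/
def T_FIX : Prop := ∀ (V : Type) [Fintype V] [DecidableEq V] (par : V → V) (dep : V → ℕ)
  (S : Finset V) (r : V), Rt par dep S r → ∀ (α : Type) [Nonempty α] (Φ : V → (V → α) → α),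
  (∀ v ∈ S, ∀ f g : V → α, (∀ c ∈ AntiSid.ch par S r v, f c = g c) → Φ v f = Φ v g) →
  ∃ f : V → α, ∀ v ∈ S, f v = Φ v f

/-- SUM: the value at the root. -/
def T_SUM : Prop := ∀ (V : Type) [Fintype V] [DecidableEq V] (par : V → V) (dep : V → ℕ)
  (S : Finset V) (r : V), Rt par dep S r → ∀ ω tot : V → ℝ,
  (∀ v ∈ S, tot v = ω v + ∑ c ∈ AntiSid.ch par S r v, tot c) → tot r = ∑ v ∈ S, ω v

/-- CNQ (from T_SUM or directly): counting. -/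
def T_CNQ : Prop := ∀ (V : Type) [Fintype V] [DecidableEq V] (par : V → V) (dep : V → ℕ)
  (S : Finset V) (r : V), Rt par dep S r →
  (∑ v ∈ Bs par S r, (AntiSid.ch par S r v).card) + 1 = (Bs par S r).card ∧
  (Bs par S r).card ≤ 2 * (S.filter fun v => AntiSid.ch par S r v = ∅).card

/-- DSQ: the description of a vertex of a thread. -/
def T_DSQ : Prop := ∀ (V : Type) [Fintype V] [DecidableEq V] (par : V → V) (dep : V → ℕ)
  (S : Finset V) (r : V), Rt par dep S r → ∀ (W : Type) [Fintype W] (K : W → W → ℝ)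
  (F : V → W → ℝ) (a : V → ℝ[X]),
    (∀ v ∈ S, F v = fun x => ∏ c ∈ AntiSid.ch par S r v, Kd K true (F c) x) →
    (∀ v ∈ S, a v = ∑ c ∈ AntiSid.ch par S r v, (1 + X * a c)) →
    ∀ v ∈ S, v ≠ r → ∃ (j : ℕ) (b : V), b ∈ Bs par S r ∧ b ≠ r ∧
      F v = (Kd K true)^[j] (F b) ∧ a v = gm j + X ^ j * a b ∧ dep v + j ≤ dep b ∧
      ∀ (τ : V → ℝ) (ρ : ℝ), (∀ u ∈ S, u ∉ Bs par S r →
        τ u = ρ + ∑ c ∈ AntiSid.ch par S r u, τ c) → τ v = j * ρ + τ b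

/-- CORQ (from T_KER, T_ELIM, T_FIX, T_SUM, T_CNQ, T_DSQ, T_STQ, T_RTQ, T_FRQ): rooted trees
with few leaves, all edges directed away from the root. -/
def T_CORQ : Prop := ∀ (V : Type) [Fintype V] [DecidableEq V] (par : V → V) (dep : V → ℕ)
  (S : Finset V) (r : V), Rt par dep S r → ∀ m : ℕ,
  (S.filter fun v => AntiSid.ch par S r v = ∅).card ≤ m → 10 ^ (9 * m + 4) ≤ S.card →
  Good par S r fun _ => false

/-- FINQ (from T_CORQ, TLT.T_RED): the theorem. -/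
def T_FINQ : Prop := ∀ (V : Type) [Fintype V] [DecidableEq V] (T : SimpleGraph V), T.IsTree →
  ∀ C : Set V, (T.induce C).Connected → (∀ v, v ∉ C → Odd (T.neighborSet v).ncard) →
  (∀ v ∈ C, Even {u | T.Adj v u ∧ u ∉ C}.ncard) → ∀ m : ℕ,
  {v | v ∈ C ∧ {w | T.Adj v w ∧ w ∈ C}.ncard ≤ 1}.ncard ≤ m → 10 ^ (9 * m + 4) ≤ C.ncard →
  ∀ r ∈ C, ∃ D : V → V → Prop,
    (∀ u v, T.Adj u v → (D u v ∨ D v u)) ∧
    (∀ u v, D u v → (T.Adj u v ∧ ¬ D v u)) ∧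
    (∀ u ∈ C, ∀ v ∈ C, D u v → T.dist r v = T.dist r u + 1) ∧
    ∀ (W : Type) [Fintype W] (G : W → W → Prop), Nonempty W → AntiSid.Tour G →
      ({f : V → W | ∀ u v, D u v → G (f u) (f v)}.ncard : ℝ) ≤
        (Fintype.card W : ℝ) ^ (Fintype.card V) * (1 / 2) ^ (T.edgeSet.ncard)

end

end Pool.Agent.TBL
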